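import Pool.Agent.Y155.NS.FarC

/-! Project MD, part FAR: the far pressure of a periodic field at small scales. -/

set_option autoImplicit false

open MeasureTheory Set Metric Filter
open scoped ContDiff Pointwise Topology

namespace Pool.Agent.Y155.NS

open H459R3.NS W221.NS Pool.Agent.W135.MD

theorem abs_of_sq {a b : ℝ} (hb : 0 ≤ b) (h : a ^ 2 ≤ b ^ 2) : |a| ≤ b := abs_le_of_sq_le_sq h hb

/-- difference of two potentials -/
theorem diff_hess {Ch Cr : ℝ} (hCr : 0 < Cr)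
    (hH : ∀ g : V → ℝ, ContDiff ℝ ∞ g → ∀ (a : V) (ρ : ℝ), 0 < ρ →
      (∀ x ∈ ball a ρ, lap g x = 0) → ∀ z ∈ ball a (ρ / 2), ∀ i,
        pd i g z ^ 2 ≤ Ch * (ρ ^ 5)⁻¹ * ∫ x in ball a ρ, g x ^ 2 ∧
        ∀ j, pd i (pd j g) z ^ 2 ≤ Ch * (ρ ^ 7)⁻¹ * ∫ x in ball a ρ, g x ^ 2)
    (hCh : 0 < Ch) {v : V → V} (hv : ContDiff ℝ ∞ v) {P Q : V → ℝ} {k : ℕ} (hk : 1 ≤ k)
    (hP : ContDiff ℝ ∞ P) (hQ : ContDiff ℝ ∞ Q)
    (eP : ∀ x ∈ ball (0 : V) (2 ^ k), -lap P x = ddq v x)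
    (eQ : ∀ x ∈ ball (0 : V) (2 ^ k), -lap Q x = ddq v x)
    (nP : ∫ x in ball (0 : V) (2 ^ (k + 1)), P x ^ 2 ≤ Cr * L4 0 (2 ^ (k + 1)) v)
    (nQ : ∫ x in ball (0 : V) (2 ^ (k + 2)), Q x ^ 2 ≤ Cr * L4 0 (2 ^ (k + 2)) v)
    {z : V} (hz : z ∈ ball (0 : V) 1) (i j : Fin 3) :
    |pd i (pd j (fun y => Q y - P y)) z| ≤
      √(4 * Ch * Cr) * (8 * (1 / 4) ^ k * (√(8 ^ (k + 2)))⁻¹ * √(L4 0 (2 ^ (k + 2)) v)) := by
  have hg : ContDiff ℝ ∞ (fun y => Q y - P y) := hQ.sub hP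
  have hz2 : z ∈ ball (0 : V) (2 ^ k / 2) := by
    refine ball_subset_ball ?_ hz
    have : (2 : ℝ) ^ 1 ≤ 2 ^ k := pow_le_pow_right₀ (by norm_num) hk
    linarith
  have h1 := ((hH _ hg 0 (2 ^ k) (by positivity) (fun x hx => by
    rw [lap_sub hQ hP]
    linarith [eP x hx, eQ x hx]) z hz2 i).2 j)
  have hcP : Continuous fun x => P x ^ 2 := hP.continuous.pow 2
  have hcQ : Continuous fun x => Q x ^ 2 := hQ.continuous.pow 2
  have mono : ∀ {f : V → ℝ}, Continuous f → (∀ x, 0 ≤ f x) → ∀ {ρ σ : ℝ}, ρ ≤ σ →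
      ∫ x in ball (0 : V) ρ, f x ≤ ∫ x in ball (0 : V) σ, f x := fun {f} hf h0 {ρ σ} hρ =>
    setIntegral_mono_set (intB hf 0 σ) (Eventually.of_forall h0)
      (LE.le.eventuallyLE (ball_subset_ball hρ))
  have p1 : (2 : ℝ) ^ k ≤ 2 ^ (k + 1) := pow_le_pow_right₀ (by norm_num) (by omega)
  have p2 : (2 : ℝ) ^ (k + 1) ≤ 2 ^ (k + 2) := pow_le_pow_right₀ (by norm_num) (by omega)
  have hL : L4 0 (2 ^ (k + 1)) v ≤ L4 0 (2 ^ (k + 2)) v := by
    unfold L4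
    refine mono ?_ (fun x => sq_nonneg _) p2
    have : ∀ i, Continuous fun y => v y i := fun i => (contDiff_pi.1 hv i).continuous
    unfold nsq
    fun_prop
  have h2 : ∫ x in ball (0 : V) (2 ^ k), (Q x - P x) ^ 2 ≤ 4 * Cr * L4 0 (2 ^ (k + 2)) v := by
    have h3 : ∫ x in ball (0 : V) (2 ^ k), (Q x - P x) ^ 2
        ≤ ∫ x in ball (0 : V) (2 ^ k), (2 * Q x ^ 2 + 2 * P x ^ 2) := by
      refine setIntegral_mono (intB (by have := hP.continuous; have := hQ.continuous; fun_prop) _ _)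
        (intB (by have := hP.continuous; have := hQ.continuous; fun_prop) _ _) fun x => ?_
      show (Q x - P x) ^ 2 ≤ 2 * Q x ^ 2 + 2 * P x ^ 2
      nlinarith [sq_nonneg (Q x + P x)]
    rw [integral_add ((intB hcQ 0 _).const_mul 2) ((intB hcP 0 _).const_mul 2),
      integral_const_mul, integral_const_mul] at h3
    have h4 := mono hcP (fun x => sq_nonneg _) p1
    have h5 := mono hcQ (fun x => sq_nonneg _) (p1.trans p2)
    have h6 : Cr * L4 0 (2 ^ (k + 1)) v ≤ Cr * L4 0 (2 ^ (k + 2)) v :=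
      mul_le_mul_of_nonneg_left hL hCr.le
    linarith
  have hL0 := L4_nonneg' 0 (2 ^ (k + 2)) v
  refine abs_of_sq (by positivity) (h1.trans ?_)
  rw [mul_pow, mul_pow, mul_pow, mul_pow, Real.sq_sqrt (by positivity), inv_pow,
    Real.sq_sqrt (by positivity), Real.sq_sqrt hL0]
  have h7 : Ch * ((2 ^ k) ^ 7)⁻¹ * ∫ x in ball (0 : V) (2 ^ k), (Q x - P x) ^ 2
      ≤ Ch * ((2 ^ k) ^ 7)⁻¹ * (4 * Cr * L4 0 (2 ^ (k + 2)) v) :=
    mul_le_mul_of_nonneg_left h2 (by positivity)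
  refine h7.trans (le_of_eq ?_)
  have e1 : (8 : ℝ) ^ (k + 2) = 64 * (2 ^ k) ^ 3 := by
    rw [pow_add, ← pow_mul, mul_comm k 3, pow_mul]; norm_num; ring
  have e2 : ((1 / 4 : ℝ) ^ k) ^ 2 = ((2 ^ k) ^ 4)⁻¹ := by
    have h14 : (1 / 4 : ℝ) = (2 ^ 2)⁻¹ := by norm_num
    rw [h14, inv_pow, inv_pow]
    congr 1
    rw [← pow_mul, ← pow_mul, ← pow_mul]
    congr 1
    ring
  rw [e1, e2]
  have e3 : (2 : ℝ) ^ k ≠ 0 := by positivity
  generalize (2 : ℝ) ^ k = a at *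
  field_simp
  norm_num

/-- telescoping -/
theorem tele {q : V → ℝ} (hq : ContDiff ℝ ∞ q) {P : ℕ → V → ℝ} (hP : ∀ k, ContDiff ℝ ∞ (P k))
    (i j : Fin 3) (z : V) (n : ℕ) :
    |pd i (pd j (fun y => q y - P 1 y)) z| ≤
      (∑ k ∈ Finset.range n, |pd i (pd j (fun y => P (k + 2) y - P (k + 1) y)) z|)
        + |pd i (pd j (fun y => q y - P (n + 1) y)) z| := by
  induction n with
  | zero => simp
  | succ n ih =>
    rw [Finset.sum_range_succ]
    have h1 : pd i (pd j (fun y => q y - P (n + 1) y)) z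
        = pd i (pd j (fun y => P (n + 2) y - P (n + 1) y)) z
          + pd i (pd j (fun y => q y - P (n + 2) y)) z := by
      rw [pd2_sub hq (hP _), pd2_sub (hP _) (hP _), pd2_sub hq (hP _)]
      ring
    have h2 := abs_add_le (pd i (pd j (fun y => P (n + 2) y - P (n + 1) y)) z)
      (pd i (pd j (fun y => q y - P (n + 2) y)) z)
    rw [← h1] at h2
    have e : n + 1 + 1 = n + 2 := rfl
    rw [e]
    linarith

theorem vol_ball' {ρ : ℝ} (hρ : 0 < ρ) : (volume : Measure V).real (ball 0 ρ) = (2 * ρ) ^ 3 := by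
  rw [Measure.real, Real.volume_pi_ball _ hρ, ENNReal.toReal_ofReal (by positivity)]
  simp

/-- the last term tends to zero -/
theorem last {Ch Cr : ℝ} (hCr : 0 < Cr) (hCh : 0 < Ch)
    (hH : ∀ g : V → ℝ, ContDiff ℝ ∞ g → ∀ (a : V) (ρ : ℝ), 0 < ρ →
      (∀ x ∈ ball a ρ, lap g x = 0) → ∀ z ∈ ball a (ρ / 2), ∀ i,
        pd i g z ^ 2 ≤ Ch * (ρ ^ 5)⁻¹ * ∫ x in ball a ρ, g x ^ 2 ∧
        ∀ j, pd i (pd j g) z ^ 2 ≤ Ch * (ρ ^ 7)⁻¹ * ∫ x in ball a ρ, g x ^ 2)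
    {v : V → V} {q : V → ℝ} {P : ℕ → V → ℝ} (hq : ContDiff ℝ ∞ q)
    (hP : ∀ k, ContDiff ℝ ∞ (P k))
    (eq : ∀ x, -lap q x = ddq v x)
    (eP : ∀ k, ∀ x ∈ ball (0 : V) (2 ^ k), -lap (P k) x = ddq v x)
    (nP : ∀ k, ∫ x in ball (0 : V) (2 ^ (k + 1)), P k x ^ 2 ≤ Cr * L4 0 (2 ^ (k + 1)) v)
    {A B L : ℝ} (hA : 0 ≤ A) (hB : 0 ≤ B) (hL : 0 ≤ L) {m : ℕ}
    (bq : ∀ k, ∀ z ∈ ball (0 : V) (2 ^ k), |q z| ≤ A + B * 2 ^ k)
    (bL : ∀ k, m ≤ k → L4 0 (2 ^ k) v ≤ 8 ^ k * L) :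
    ∃ K : ℝ, ∀ k, 1 ≤ k → m ≤ k → ∀ z ∈ ball (0 : V) 1, ∀ i j,
      |pd i (pd j (fun y => q y - P k y)) z| ≤ K * (1 / 2) ^ k := by
  refine ⟨√(Ch * (16 * (A + B) ^ 2 + 16 * Cr * L)), fun k hk hmk z hz i j => ?_⟩
  have hg : ContDiff ℝ ∞ (fun y => q y - P k y) := hq.sub (hP k)
  have hz2 : z ∈ ball (0 : V) (2 ^ k / 2) := by
    refine ball_subset_ball ?_ hz
    have : (2 : ℝ) ^ 1 ≤ 2 ^ k := pow_le_pow_right₀ (by norm_num) hk
    linarith
  have h1 := ((hH _ hg 0 (2 ^ k) (by positivity) (fun x hx => by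
    rw [lap_sub hq (hP k)]
    linarith [eP k x hx, eq x]) z hz2 i).2 j)
  have hcP : Continuous fun x => P k x ^ 2 := (hP k).continuous.pow 2
  have hcq : Continuous fun x => q x ^ 2 := hq.continuous.pow 2
  have p1 : (2 : ℝ) ^ k ≤ 2 ^ (k + 1) := pow_le_pow_right₀ (by norm_num) (by omega)
  have one : (1 : ℝ) ≤ 2 ^ k := one_le_pow₀ (by norm_num)
  have iP : ∫ x in ball (0 : V) (2 ^ k), P k x ^ 2 ≤ 8 * Cr * L * (2 ^ k) ^ 5 := by
    have a1 : ∫ x in ball (0 : V) (2 ^ k), P k x ^ 2 ≤ ∫ x in ball (0 : V) (2 ^ (k + 1)), P k x ^ 2 :=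
      setIntegral_mono_set (intB hcP 0 _) (Eventually.of_forall fun x => sq_nonneg _)
        (LE.le.eventuallyLE (ball_subset_ball p1))
    have a2 := nP k
    have a3 : Cr * L4 0 (2 ^ (k + 1)) v ≤ Cr * (8 ^ (k + 1) * L) :=
      mul_le_mul_of_nonneg_left (bL (k + 1) (by omega)) hCr.le
    have a4 : (8 : ℝ) ^ (k + 1) = 8 * (2 ^ k) ^ 3 := by
      rw [pow_succ, ← pow_mul, mul_comm k 3, pow_mul]; norm_num; ring
    have a5 : (2 ^ k : ℝ) ^ 3 ≤ (2 ^ k) ^ 5 := pow_le_pow_right₀ one (by norm_num)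
    rw [a4] at a3
    have a6 : 8 * Cr * L * (2 ^ k : ℝ) ^ 3 ≤ 8 * Cr * L * (2 ^ k) ^ 5 :=
      mul_le_mul_of_nonneg_left a5 (by positivity)
    calc _ ≤ _ := a1
      _ ≤ _ := a2
      _ ≤ _ := a3
      _ = 8 * Cr * L * (2 ^ k : ℝ) ^ 3 := by ring
      _ ≤ _ := a6
  have iq : ∫ x in ball (0 : V) (2 ^ k), q x ^ 2 ≤ 8 * (A + B) ^ 2 * (2 ^ k) ^ 5 := by
    have a1 : ‖∫ x in ball (0 : V) (2 ^ k), q x ^ 2‖
        ≤ (A + B * 2 ^ k) ^ 2 * (volume : Measure V).real (ball 0 (2 ^ k)) := by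
      refine norm_setIntegral_le_of_norm_le_const measure_ball_lt_top fun x hx => ?_
      rw [Real.norm_of_nonneg (sq_nonneg _), ← sq_abs]
      exact pow_le_pow_left₀ (abs_nonneg _) (bq k x hx) 2
    rw [vol_ball' (by positivity)] at a1
    have a2 := (Real.le_norm_self _).trans a1
    have a3 : A + B * 2 ^ k ≤ (A + B) * 2 ^ k := by nlinarith
    have a4 : (A + B * 2 ^ k) ^ 2 ≤ ((A + B) * 2 ^ k) ^ 2 := pow_le_pow_left₀ (by positivity) a3 2
    have a5 : (A + B * 2 ^ k) ^ 2 * (2 * 2 ^ k) ^ 3 ≤ ((A + B) * 2 ^ k) ^ 2 * (2 * 2 ^ k) ^ 3 :=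
      mul_le_mul_of_nonneg_right a4 (by positivity)
    refine a2.trans (a5.trans (le_of_eq ?_))
    ring
  have h2 : ∫ x in ball (0 : V) (2 ^ k), (q x - P k x) ^ 2
      ≤ (16 * (A + B) ^ 2 + 16 * Cr * L) * (2 ^ k) ^ 5 := by
    have h3 : ∫ x in ball (0 : V) (2 ^ k), (q x - P k x) ^ 2
        ≤ ∫ x in ball (0 : V) (2 ^ k), (2 * q x ^ 2 + 2 * P k x ^ 2) := by
      refine setIntegral_mono (intB (by have := (hP k).continuous; have := hq.continuous; fun_prop)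
        _ _) (intB (by have := (hP k).continuous; have := hq.continuous; fun_prop) _ _) fun x => ?_
      show (q x - P k x) ^ 2 ≤ 2 * q x ^ 2 + 2 * P k x ^ 2
      nlinarith [sq_nonneg (q x + P k x)]
    rw [integral_add ((intB hcq 0 _).const_mul 2) ((intB hcP 0 _).const_mul 2),
      integral_const_mul, integral_const_mul] at h3
    linarith
  refine abs_of_sq (by positivity) (h1.trans ?_)
  have h7 : Ch * ((2 ^ k) ^ 7)⁻¹ * ∫ x in ball (0 : V) (2 ^ k), (q x - P k x) ^ 2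
      ≤ Ch * ((2 ^ k) ^ 7)⁻¹ * ((16 * (A + B) ^ 2 + 16 * Cr * L) * (2 ^ k) ^ 5) :=
    mul_le_mul_of_nonneg_left h2 (by positivity)
  refine h7.trans (le_of_eq ?_)
  rw [mul_pow, Real.sq_sqrt (by positivity), one_div, inv_pow]
  have e3 : (2 : ℝ) ^ k ≠ 0 := by positivity
  generalize (2 : ℝ) ^ k = a at *
  field_simp

theorem t_FAR' (hG : S_GROW) (hR : S_RIESZ) (hH : S_HARM) : S_FAR := by
  obtain ⟨Cg, hCg, hG⟩ := hG
  obtain ⟨Cr, hCr, hR⟩ := hR
  obtain ⟨Ch, hCh, hH⟩ := hH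
  set C1 : ℝ := √(4 * Ch * Cr) * (8 * (3 * Cg)) with hC1
  have hC1p : 0 ≤ C1 := by positivity
  refine ⟨max (√Cr * (3 * Cg * √(8 ^ 2) * 4096)) (max (C1 * 8192) 128) + 1,
    by positivity, fun u p hu hp hdiv heq m hm x c l v q hv hq hmean => ?_⟩
  set K : ℝ := max (√Cr * (3 * Cg * √(8 ^ 2) * 4096)) (max (C1 * 8192) 128) + 1 with hK
  have hFF : 0 ≤ FF m u x := by
    have := sum_bb (x := x) (c := c) hu hv
    have h0 : 0 ≤ ∑ j ∈ Finset.range (m + 2), bb v j := Finset.sum_nonneg fun j _ => bb_nonneg v j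
    linarith
  have K1 : √Cr * (3 * Cg * √(8 ^ 2) * 4096) ≤ K := (le_max_left _ _).trans (by linarith)
  have K2 : C1 * 8192 ≤ K := ((le_max_left _ _).trans (le_max_right _ _)).trans (by linarith)
  have K3 : 128 ≤ K := ((le_max_right _ _).trans (le_max_right _ _)).trans (by linarith)
  have sv : ContDiff ℝ ∞ v := smooth_v hu.1 hv
  have hqf : q = fun z => rr m ^ 2 * p (x + rr m • z) + ∑ i, l i * z i := funext hq
  have slin : ContDiff ℝ ∞ (fun z : V => ∑ i, l i * z i) :=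
    ContDiff.sum fun i _ => contDiff_const.mul (contDiff_apply ℝ ℝ i)
  have sp1 : ContDiff ℝ ∞ (fun z : V => rr m ^ 2 * p (x + rr m • z)) :=
    contDiff_const.mul (sm_comp hp.smooth x (rr m))
  have sq : ContDiff ℝ ∞ q := by
    rw [hqf]
    exact sp1.add slin
  have hlapq : ∀ z, -lap q z = ddq v z := by
    intro z
    rw [ddq_scale hu.1 hdiv hv, ← heq]
    unfold lap
    have h1 : ∀ j, pd j (pd j q) z = rr m ^ 4 * pd j (pd j p) (x + rr m • z) := by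
      intro j
      rw [hqf, pd2_add sp1 slin, pd2_lin, pd2_cmul (sm_comp hp.smooth x (rr m)),
        pd2_aff hp.smooth]
      ring
    simp_rw [h1, ← Finset.mul_sum]
    ring
  have hL := L4_all (x := x) (c := c) hCg (hG v sv hmean) hu hv
  choose P hP1 hP2 hP3 using fun k : ℕ => hR v sv 0 (2 ^ (k + 1)) (by positivity)
  have eP : ∀ k, ∀ x ∈ ball (0 : V) (2 ^ k), -lap (P k) x = ddq v x := by
    intro k x hx
    refine hP2 k x ?_
    have : (2 : ℝ) ^ (k + 1) / 2 = 2 ^ k := by rw [pow_succ]; ring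
    rwa [this]
  have hmm : m + 2 = m + 2 := rfl
  -- the sum of the potentials
  have hterm : ∀ z ∈ ball (0 : V) 1, ∀ i j, ∀ k : ℕ,
      |pd i (pd j (fun y => P (k + 2) y - P (k + 1) y)) z|
        ≤ C1 * (8 * ((1 / 2) ^ k * TT (bb v) (min (k + 5) (m + 2)))) := by
    intro z hz i j k
    have h1 := diff_hess hCr hH hCh sv (k := k + 1) (by omega) (hP1 (k + 1)) (hP1 (k + 2))
      (eP (k + 1)) (fun x hx => eP (k + 2) x (ball_subset_ball
        (pow_le_pow_right₀ (by norm_num) (by omega)) hx)) (hP3 (k + 1)) (hP3 (k + 2)) hz i j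
    refine h1.trans ?_
    have h2 := hL (k + 1 + 2)
    have h3 := SS_sq (bb_nonneg v) (min (k + 1 + 2) m + 2)
    have e1 : min (k + 1 + 2) m + 2 = min (k + 5) (m + 2) := by omega
    rw [e1] at h2 h3
    have h8 : 0 < √((8 : ℝ) ^ (k + 1 + 2)) := by positivity
    have h4 : (√((8 : ℝ) ^ (k + 1 + 2)))⁻¹ * √(L4 0 (2 ^ (k + 1 + 2)) v)
        ≤ 3 * Cg * SS (bb v) (min (k + 5) (m + 2)) ^ 2 := by
      rw [inv_mul_le_iff₀ h8]
      refine h2.trans (le_of_eq ?_)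
      ring
    have h5 : (2 : ℝ) ^ min (k + 5) (m + 2) ≤ 2 ^ (k + 5) :=
      pow_le_pow_right₀ (by norm_num) (min_le_left _ _)
    have hT : 0 ≤ TT (bb v) (min (k + 5) (m + 2)) :=
      Finset.sum_nonneg fun j _ => mul_nonneg (by positivity) (bb_nonneg v j)
    have h6 : SS (bb v) (min (k + 5) (m + 2)) ^ 2
        ≤ 2 ^ (k + 5) * TT (bb v) (min (k + 5) (m + 2)) :=
      h3.trans (mul_le_mul_of_nonneg_right h5 hT)
    have h7 : (√((8 : ℝ) ^ (k + 1 + 2)))⁻¹ * √(L4 0 (2 ^ (k + 1 + 2)) v)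
        ≤ 3 * Cg * (2 ^ (k + 5) * TT (bb v) (min (k + 5) (m + 2))) :=
      h4.trans (mul_le_mul_of_nonneg_left h6 (by positivity))
    calc √(4 * Ch * Cr) * (8 * (1 / 4) ^ (k + 1) * (√(8 ^ (k + 1 + 2)))⁻¹
          * √(L4 0 (2 ^ (k + 1 + 2)) v))
        = √(4 * Ch * Cr) * (8 * (1 / 4) ^ (k + 1)) * ((√(8 ^ (k + 1 + 2)))⁻¹
          * √(L4 0 (2 ^ (k + 1 + 2)) v)) := by ring
      _ ≤ √(4 * Ch * Cr) * (8 * (1 / 4) ^ (k + 1)) *
          (3 * Cg * (2 ^ (k + 5) * TT (bb v) (min (k + 5) (m + 2)))) :=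
          mul_le_mul_of_nonneg_left h7 (by positivity)
      _ = C1 * (8 * (((1 / 4) ^ k * 2 ^ k) * TT (bb v) (min (k + 5) (m + 2)))) := by
          rw [hC1]
          ring
      _ = C1 * (8 * ((1 / 2) ^ k * TT (bb v) (min (k + 5) (m + 2)))) := by
          rw [← mul_pow]
          norm_num
  have hsum : ∀ z ∈ ball (0 : V) 1, ∀ i j, ∀ n : ℕ,
      ∑ k ∈ Finset.range n, |pd i (pd j (fun y => P (k + 2) y - P (k + 1) y)) z|
        ≤ C1 * 8192 * FF m u x := by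
    intro z hz i j n
    refine (Finset.sum_le_sum fun k _ => hterm z hz i j k).trans ?_
    rw [← Finset.mul_sum, ← Finset.mul_sum]
    have h1 := dbl' (bb_nonneg v) (m + 2) n
    have h2 := sum_bb (x := x) (c := c) hu hv
    have h3 : 8 * ∑ k ∈ Finset.range n, (1 / 2 : ℝ) ^ k * TT (bb v) (min (k + 5) (m + 2))
        ≤ 8192 * FF m u x := by linarith
    calc _ ≤ C1 * (8192 * FF m u x) := mul_le_mul_of_nonneg_left h3 hC1p
      _ = _ := by ring
  -- the last term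
  obtain ⟨A, hA, hA2⟩ := per_bdd hp.smooth.continuous hp.per
  have hrr1 : rr m ≤ 1 := by
    unfold rr
    exact pow_le_one₀ (by norm_num) (by norm_num)
  have hrr0 := rr_pos m
  obtain ⟨KK, hKK⟩ := last (v := v) hCr hCh hH sq hP1 hlapq eP hP3 hA
    (B := ∑ i, |l i|) (Finset.sum_nonneg fun i _ => abs_nonneg _) (L := 8 * L4 0 (2 ^ m) v)
    (mul_nonneg (by norm_num) (L4_nonneg' _ _ _)) (m := m) (fun k z hz => by
      rw [hq]
      refine (abs_add_le _ _).trans (add_le_add ?_ ?_)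
      · rw [abs_mul, abs_of_nonneg (by positivity : 0 ≤ rr m ^ 2)]
        have h1 : rr m ^ 2 ≤ 1 := pow_le_one₀ hrr0.le hrr1
        have h2 := hA2 (x + rr m • z)
        have h3 : rr m ^ 2 * |p (x + rr m • z)| ≤ 1 * |p (x + rr m • z)| :=
          mul_le_mul_of_nonneg_right h1 (abs_nonneg _)
        linarith
      · refine (Finset.abs_sum_le_sum_abs _ _).trans ?_
        rw [Finset.sum_mul]
        refine Finset.sum_le_sum fun i _ => ?_
        rw [abs_mul]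
        refine mul_le_mul_of_nonneg_left ?_ (abs_nonneg _)
        rw [mem_ball_zero_iff] at hz
        exact (norm_le_pi_norm z i).trans hz.le)
    (fun k hk => by
      obtain ⟨n, rfl⟩ := Nat.exists_eq_add_of_le hk
      refine (L4_ge (x := x) (c := c) hu hv n).trans ?_
      have h1 : (8 : ℝ) ^ n ≤ 8 ^ (m + n) := pow_le_pow_right₀ (by norm_num) (by omega)
      have h2 := L4_nonneg' 0 (2 ^ m) v
      rw [pow_succ]
      nlinarith)
  refine ⟨P 1, hP1 1, fun z hz => eP 1 z (ball_subset_ball (by norm_num) hz), ?_, ?_, ?_⟩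
  · -- the norm of the local potential
    have h1 : ∫ z in ball (0 : V) 1, P 1 z ^ 2 ≤ ∫ z in ball (0 : V) (2 ^ (1 + 1)), P 1 z ^ 2 :=
      setIntegral_mono_set (intB ((hP1 1).continuous.pow 2) 0 _)
        (Eventually.of_forall fun x => sq_nonneg _)
        (LE.le.eventuallyLE (ball_subset_ball (by norm_num)))
    have h2 := h1.trans (hP3 1)
    have h3 := hL 2
    have h4 := SS_sq (bb_nonneg v) (min 2 m + 2)
    have e1 : min 2 m + 2 = 4 := by omega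
    rw [e1] at h3 h4
    have h5 := TT_le (bb_nonneg v) (n := 4) (by norm_num)
    have h6 : ∑ j ∈ Finset.range 4, bb v j ≤ ∑ j ∈ Finset.range (m + 2), bb v j :=
      Finset.sum_le_sum_of_subset_of_nonneg (Finset.range_mono (by omega))
        fun j _ _ => bb_nonneg v j
    have h7 := sum_bb (x := x) (c := c) hu hv
    have h8 : SS (bb v) 4 ^ 2 ≤ 4096 * FF m u x := by
      norm_num at h4
      linarith
    have h9 : √(L4 0 (2 ^ 2) v) ≤ 3 * Cg * √(8 ^ 2) * (4096 * FF m u x) :=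
      h3.trans (mul_le_mul_of_nonneg_left h8 (by positivity))
    have h10 : √Cr * √(L4 0 (2 ^ 2) v) ≤ K * FF m u x := by
      refine (mul_le_mul_of_nonneg_left h9 (Real.sqrt_nonneg _)).trans ?_
      refine le_trans (le_of_eq ?_) (mul_le_mul_of_nonneg_right K1 hFF)
      ring
    have h11 : Cr * L4 0 (2 ^ (1 + 1)) v = (√Cr * √(L4 0 (2 ^ 2) v)) ^ 2 := by
      rw [mul_pow, Real.sq_sqrt hCr.le, Real.sq_sqrt (L4_nonneg' _ _ _)]
    rw [h11] at h2
    exact h2.trans (pow_le_pow_left₀ (by positivity) h10 2)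
  · intro z hz i j
    have h1 : ∀ n : ℕ, m ≤ n → |pd i (pd j (fun y => q y - P 1 y)) z|
        ≤ C1 * 8192 * FF m u x + KK * (1 / 2) ^ (n + 1) := fun n hn =>
      (tele sq hP1 i j z n).trans (add_le_add (hsum z hz i j n)
        (hKK (n + 1) (by omega) (by omega) z hz i j))
    have h2 : Tendsto (fun n : ℕ => C1 * 8192 * FF m u x + KK * (1 / 2 : ℝ) ^ (n + 1)) atTop
        (𝓝 (C1 * 8192 * FF m u x + KK * 0)) := by
      refine tendsto_const_nhds.add (tendsto_const_nhds.mul ?_)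
      exact (tendsto_pow_atTop_nhds_zero_of_lt_one (by norm_num) (by norm_num)).comp
        (tendsto_add_atTop_nat 1)
    rw [mul_zero, add_zero] at h2
    have h3 := ge_of_tendsto h2 (eventually_atTop.2 ⟨m, h1⟩)
    exact h3.trans (mul_le_mul_of_nonneg_right K2 hFF)
  · exact (B2_two (x := x) (c := c) hu hv).trans (mul_le_mul_of_nonneg_right K3 hFF)

theorem t_FAR (_ : S_POINC) (_ : S_SOB) (hG : S_GROW) (hR : S_RIESZ) (hH : S_HARM) : S_FAR :=
  t_FAR' hG hR hH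

end Pool.Agent.Y155.NS
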