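import Pool.Agent.W135.MD.FarA

/-! Project MD, part FAR: integrals of periodic functions over balls. -/

set_option autoImplicit false

open MeasureTheory Set Metric Filter
open scoped ContDiff Pointwise Topology

namespace Pool.Agent.Y155.NS

open H459R3.NS W221.NS Pool.Agent.W135.MD

theorem intB {f : V → ℝ} (hf : Continuous f) (a : V) (ρ : ℝ) : IntegrableOn f (ball a ρ) :=
  (hf.continuousOn.integrableOn_compact (isCompact_closedBall a ρ)).mono_set
    ball_subset_closedBall

theorem ball_eq_cube {f : V → ℝ} (hp : Per f) (x : V) :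
    ∫ y in ball x (1 / 2), f y = ∫ y in cube, f y := by
  set b := Pi.basisFun ℝ (Fin 3) with hb
  set D : Set V := ZSpan.fundamentalDomain b with hD
  have hDm : MeasurableSet D := ZSpan.fundamentalDomain_measurableSet _
  have hDmem : ∀ y : V, y ∈ D ↔ ∀ i, y i ∈ Ico (0 : ℝ) 1 := by
    intro y
    rw [hD, ZSpan.mem_fundamentalDomain]
    simp [hb]
  have hfd1 : IsAddFundamentalDomain (Submodule.span ℤ (Set.range b)) D (volume : Measure V) :=
    ZSpan.isAddFundamentalDomain _ _
  set a : V := fun i => x i - 1 / 2 with ha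
  set D' : Set V := (fun y => a + y) '' D with hD'
  have hfd2 : IsAddFundamentalDomain (Submodule.span ℤ (Set.range b)) D' (volume : Measure V) := by
    refine IsAddFundamentalDomain.mk' ?_ ?_
    · exact ((measurableEmbedding_addLeft a).measurableSet_image.2 hDm).nullMeasurableSet
    · intro y
      obtain ⟨g, hg, hg'⟩ := ZSpan.exist_unique_vadd_mem_fundamentalDomain b (-a + y)
      refine ⟨g, ?_, ?_⟩
      · refine ⟨g +ᵥ (-a + y), hg, ?_⟩
        show a + ((g : V) + (-a + y)) = (g : V) + y
        abel
      · intro g2 hg2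
        apply hg'
        obtain ⟨w, hw, hw2⟩ := hg2
        have h2 : (g2 : V) + (-a + y) = w := by
          have : a + w = (g2 : V) + y := hw2
          have h3 : w = (g2 : V) + y - a := by rw [← this]; abel
          rw [h3]; abel
        show (g2 : V) + (-a + y) ∈ D
        rw [h2]
        exact hw
  have hinv : VAddInvariantMeasure (Submodule.span ℤ (Set.range b)) V (volume : Measure V) :=
    ⟨fun g s _ => measure_preimage_add volume (g : V) s⟩
  have e2 : ∫ z in D, f z = ∫ z in D', f z :=
    hfd1.setIntegral_eq hfd2 (fun g x => per_lattice hp g x)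
  have e3 : ∫ z in D, f z = ∫ z in cube, f z := by
    apply setIntegral_congr_set
    have h1 : D = Set.pi Set.univ fun _ : Fin 3 => Ico (0 : ℝ) 1 := by
      ext y; rw [hDmem]; simp
    rw [h1]
    have h2 := Measure.univ_pi_Ico_ae_eq_Icc (μ := fun _ : Fin 3 => (volume : Measure ℝ))
      (f := (0 : V)) (g := 1)
    rw [← volume_pi] at h2
    exact h2
  have e4 : ∫ z in D', f z = ∫ z in ball x (1 / 2), f z := by
    apply setIntegral_congr_set
    have h1 : D' = Set.pi Set.univ fun i : Fin 3 => Ico (a i) (a i + 1) := by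
      ext y
      simp only [hD', mem_image, mem_univ_pi, mem_Ico]
      constructor
      · rintro ⟨w, hw, rfl⟩ i
        have := (hDmem w).1 hw i
        constructor
        · show a i ≤ a i + w i
          linarith [this.1]
        · show a i + w i < a i + 1
          linarith [this.2]
      · intro h
        refine ⟨-a + y, (hDmem _).2 fun i => ?_, by abel⟩
        show -(a i) + y i ∈ Ico (0 : ℝ) 1
        constructor
        · linarith [(h i).1]
        · linarith [(h i).2]
    have h2 : ball x (1 / 2) = Set.pi Set.univ fun i : Fin 3 => Ioo (a i) (a i + 1) := by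
      rw [ball_pi x (by norm_num : (0 : ℝ) < 1 / 2)]
      congr 1
      funext i
      rw [Real.ball_eq_Ioo]
      simp only [ha]
      congr 1
      ring
    rw [h1, h2]
    have h3 := Measure.univ_pi_Ico_ae_eq_Icc (μ := fun _ : Fin 3 => (volume : Measure ℝ))
      (f := a) (g := fun i => a i + 1)
    have h4 := Measure.univ_pi_Ioo_ae_eq_Icc (μ := fun _ : Fin 3 => (volume : Measure ℝ))
      (f := a) (g := fun i => a i + 1)
    rw [← volume_pi] at h3 h4
    exact h3.trans h4.symm
  rw [← e3, e2, e4]

theorem cube_le_ball {f : V → ℝ} (hf : Continuous f) (hp : Per f) (h0 : ∀ y, 0 ≤ f y) (x : V) :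
    ∫ y in cube, f y ≤ ∫ y in ball x 1, f y := by
  rw [← ball_eq_cube hp x]
  exact setIntegral_mono_set (intB hf x 1) (Filter.Eventually.of_forall h0)
    (LE.le.eventuallyLE (ball_subset_ball (by norm_num)))

/-- the eight corners -/
def crn (ε : Fin 3 → Bool) : V := fun i => if ε i then 1 else -1

theorem cb_ae (x : V) {ρ : ℝ} (_ : 0 < ρ) :
    (ball x ρ : Set V) =ᵐ[volume] closedBall x ρ := by
  refine ae_eq_of_subset_of_measure_ge ball_subset_closedBall ?_
    measurableSet_ball.nullMeasurableSet measure_closedBall_lt_top.ne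
  rw [Measure.addHaar_closedBall_eq_addHaar_ball]

theorem ball_double {f : V → ℝ} (hf : Continuous f) (h0 : ∀ y, 0 ≤ f y) (x : V) {ρ : ℝ}
    (hρ : 0 < ρ) :
    ∫ y in ball x (2 * ρ), f y ≤ ∑ ε : Fin 3 → Bool, ∫ y in ball (x + ρ • crn ε) ρ, f y := by
  have e1 : ∀ ε : Fin 3 → Bool, ∫ y in ball (x + ρ • crn ε) ρ, f y
      = ∫ y, (closedBall (x + ρ • crn ε) ρ).indicator f y := by
    intro ε
    rw [integral_indicator measurableSet_closedBall]
    exact setIntegral_congr_set (cb_ae _ hρ)
  have hi : ∀ ε : Fin 3 → Bool,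
      Integrable (fun y => (closedBall (x + ρ • crn ε) ρ).indicator f y) := by
    intro ε
    rw [integrable_indicator_iff measurableSet_closedBall]
    exact hf.continuousOn.integrableOn_compact (isCompact_closedBall _ _)
  simp_rw [e1]
  rw [← integral_finsetSum _ fun ε _ => hi ε, ← integral_indicator measurableSet_ball]
  refine integral_mono ?_ (integrable_finsetSum _ fun ε _ => hi ε) fun y => ?_
  · rw [integrable_indicator_iff measurableSet_ball]
    exact intB hf x _
  · have hnn : ∀ ε : Fin 3 → Bool, 0 ≤ (closedBall (x + ρ • crn ε) ρ).indicator f y :=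
      fun ε => indicator_nonneg (fun z _ => h0 z) y
    by_cases hy : y ∈ ball x (2 * ρ)
    · rw [indicator_of_mem hy]
      set ε : Fin 3 → Bool := fun i => decide (x i ≤ y i) with hε
      have hmem : y ∈ closedBall (x + ρ • crn ε) ρ := by
        rw [mem_closedBall, dist_pi_le_iff hρ.le]
        intro i
        rw [mem_ball, dist_pi_lt_iff (by positivity)] at hy
        have h1 := hy i
        rw [Real.dist_eq, abs_lt] at h1
        rw [Real.dist_eq, abs_le]
        show -ρ ≤ y i - (x i + ρ * crn ε i) ∧ y i - (x i + ρ * crn ε i) ≤ ρ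
        by_cases h : x i ≤ y i
        · have : crn ε i = 1 := by simp [crn, hε, h]
          rw [this]
          constructor <;> linarith [h1.1, h1.2]
        · have : crn ε i = -1 := by simp [crn, hε, h]
          rw [this]
          push Not at h
          constructor <;> linarith [h1.1, h1.2]
      calc f y = (closedBall (x + ρ • crn ε) ρ).indicator f y := by rw [indicator_of_mem hmem]
        _ ≤ _ := Finset.single_le_sum (f := fun ε : Fin 3 → Bool =>
            (closedBall (x + ρ • crn ε) ρ).indicator f y) (fun ε _ => hnn ε) (Finset.mem_univ ε)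
    · rw [indicator_of_notMem hy]
      exact Finset.sum_nonneg fun ε _ => hnn ε

theorem ball_pow {f : V → ℝ} (hf : Continuous f) (hp : Per f) (h0 : ∀ y, 0 ≤ f y) (n : ℕ) :
    ∀ x : V, ∫ y in ball x (2 ^ n / 2), f y ≤ 8 ^ n * ∫ y in cube, f y := by
  induction n with
  | zero =>
    intro x
    rw [pow_zero, pow_zero, one_mul, ball_eq_cube hp x]
  | succ n ih =>
    intro x
    have h1 : (2 : ℝ) ^ (n + 1) / 2 = 2 * (2 ^ n / 2) := by ring
    rw [h1]
    refine (ball_double hf h0 x (by positivity)).trans ?_
    refine (Finset.sum_le_sum fun ε _ => ih _).trans ?_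
    rw [Finset.sum_const, Finset.card_univ]
    simp only [Fintype.card_pi, Fintype.card_bool, Finset.prod_const, Finset.card_univ,
      Fintype.card_fin, nsmul_eq_mul]
    rw [pow_succ]
    push_cast
    exact le_of_eq (by ring)

theorem per_bdd {f : V → ℝ} (hf : Continuous f) (hp : Per f) : ∃ A : ℝ, 0 ≤ A ∧ ∀ x, |f x| ≤ A := by
  obtain ⟨A, hA⟩ := (isCompact_Icc (a := (0 : V)) (b := 1)).exists_bound_of_continuousOn
    hf.continuousOn
  refine ⟨max A 0, le_max_right _ _, fun x => ?_⟩
  obtain ⟨g, hg, -⟩ := ZSpan.exist_unique_vadd_mem_fundamentalDomain (Pi.basisFun ℝ (Fin 3)) x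
  rw [← per_lattice hp g x]
  rw [ZSpan.mem_fundamentalDomain] at hg
  refine (hA (g +ᵥ x) ⟨fun i => ?_, fun i => ?_⟩).trans (le_max_left _ _)
  · have := (hg i).1
    simpa using this
  · have := (hg i).2
    simpa using this.le

theorem per_pd {f : V → ℝ} (hp : Per f) (j : Fin 3) : Per (pd j f) := by
  intro i x
  unfold pd
  have h : (fun y => f (y + Pi.single i 1)) = f := funext fun y => hp i y
  have h2 := fderiv_comp_add_right (𝕜 := ℝ) (f := f) (x := x) (Pi.single i (1 : ℝ) : V)
  rw [h] at h2
  rw [← h2]

theorem gsq_cont {u : V → V} (hu : ContDiff ℝ ∞ u) : Continuous (gsq u) := by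
  unfold gsq
  refine continuous_finsetSum _ fun i _ => continuous_finsetSum _ fun j _ => ?_
  exact (sm_pd (contDiff_pi.1 hu i) j).continuous.pow 2

theorem gsq_nonneg (u : V → V) (x : V) : 0 ≤ gsq u x :=
  Finset.sum_nonneg fun _ _ => Finset.sum_nonneg fun _ _ => sq_nonneg _

theorem gsq_per {u : V → V} (hp : Per u) : Per (gsq u) := by
  intro i x
  unfold gsq
  refine Finset.sum_congr rfl fun k _ => Finset.sum_congr rfl fun j _ => ?_
  have : Per (fun y => u y k) := fun i x => congrFun (hp i x) k
  rw [per_pd this j i x]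

theorem int_gsq {u : V → V} (hu : ContDiff ℝ ∞ u) : ∫ x in cube, gsq u x = enstrophy u := by
  unfold gsq enstrophy
  have hi : ∀ i j, IntegrableOn (fun x => pd j (fun y => u y i) x ^ 2) cube := fun i j =>
    (((sm_pd (contDiff_pi.1 hu i) j).continuous.pow 2).continuousOn).integrableOn_compact
      isCompact_Icc
  rw [integral_finsetSum _ fun i _ => integrable_finsetSum _ fun j _ => hi i j]
  refine Finset.sum_congr rfl fun i _ => ?_
  rw [integral_finsetSum _ fun j _ => hi i j]

theorem enst_nonneg {u : V → V} (hu : ContDiff ℝ ∞ u) : 0 ≤ enstrophy u := by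
  rw [← int_gsq hu]
  exact setIntegral_nonneg measurableSet_Icc fun x _ => gsq_nonneg u x

theorem avg_nonneg (u : V → V) (x : V) {ρ : ℝ} (hρ : 0 < ρ) : 0 ≤ avg u x ρ := by
  unfold avg
  have : 0 ≤ ∫ y in ball x ρ, gsq u y :=
    setIntegral_nonneg measurableSet_ball fun x _ => gsq_nonneg u x
  positivity

end Pool.Agent.Y155.NS
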