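import Pool.Agent.Y155.NS.FarB

/-! Project MD, part FAR: sums over scales. -/

set_option autoImplicit false

open MeasureTheory Set Metric Filter
open scoped ContDiff Pointwise Topology

namespace Pool.Agent.Y155.NS

open H459R3.NS W221.NS Pool.Agent.W135.MD

/-- the weighted sum -/
noncomputable def TT (b : ℕ → ℝ) (n : ℕ) : ℝ := ∑ j ∈ Finset.range n, 2 ^ j * b j

/-- the sum of square roots -/
noncomputable def SS (b : ℕ → ℝ) (n : ℕ) : ℝ := ∑ j ∈ Finset.range n, 2 ^ j * √(b j)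

theorem SS_nonneg (b : ℕ → ℝ) (n : ℕ) : 0 ≤ SS b n :=
  Finset.sum_nonneg fun _ _ => by positivity

theorem SS_sq {b : ℕ → ℝ} (hb : ∀ j, 0 ≤ b j) (n : ℕ) : SS b n ^ 2 ≤ 2 ^ n * TT b n := by
  have h1 : SS b n = ∑ j ∈ Finset.range n, √(2 ^ j) * (√(2 ^ j) * √(b j)) := by
    unfold SS
    refine Finset.sum_congr rfl fun j _ => ?_
    rw [← mul_assoc, Real.mul_self_sqrt (by positivity)]
  have h2 := Finset.sum_mul_sq_le_sq_mul_sq (Finset.range n) (fun j => √((2 : ℝ) ^ j))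
    (fun j => √(2 ^ j) * √(b j))
  rw [← h1] at h2
  refine h2.trans ?_
  have h3 : ∑ j ∈ Finset.range n, √((2 : ℝ) ^ j) ^ 2 ≤ 2 ^ n := by
    have : ∀ j ∈ Finset.range n, √((2 : ℝ) ^ j) ^ 2 = 2 ^ j := fun j _ =>
      Real.sq_sqrt (by positivity)
    rw [Finset.sum_congr rfl this]
    have h4 := geom_sum_eq (by norm_num : (2 : ℝ) ≠ 1) n
    rw [h4]
    norm_num
  have h5 : ∑ j ∈ Finset.range n, (√((2 : ℝ) ^ j) * √(b j)) ^ 2 = TT b n := by
    unfold TT
    refine Finset.sum_congr rfl fun j _ => ?_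
    rw [mul_pow, Real.sq_sqrt (by positivity), Real.sq_sqrt (hb j)]
  rw [h5]
  refine mul_le_mul_of_nonneg_right h3 ?_
  exact Finset.sum_nonneg fun j _ => mul_nonneg (by positivity) (hb j)

theorem TT_le {b : ℕ → ℝ} (hb : ∀ j, 0 ≤ b j) {n : ℕ} (hn : n ≤ 5) :
    TT b n ≤ 16 * ∑ j ∈ Finset.range n, b j := by
  unfold TT
  rw [Finset.mul_sum]
  refine Finset.sum_le_sum fun j hj => ?_
  have hj2 : j ≤ 4 := by
    have := Finset.mem_range.1 hj
    omega
  have : (2 : ℝ) ^ j ≤ 2 ^ 4 := pow_le_pow_right₀ (by norm_num) hj2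
  refine mul_le_mul_of_nonneg_right (by linarith) (hb j)

theorem dbl {b : ℕ → ℝ} (hb : ∀ j, 0 ≤ b j) (M N : ℕ) :
    ∑ k ∈ Finset.range N, (1 / 2 : ℝ) ^ k * TT b (min (k + 5) M)
      + 2 * (1 / 2) ^ N * TT b (min (N + 5) M)
      ≤ 2 * TT b (min 5 M) + 32 * ∑ j ∈ Finset.range (min (N + 5) M), b j := by
  induction N with
  | zero =>
    simp only [Finset.range_zero, Finset.sum_empty, pow_zero, zero_add, mul_one]
    have : 0 ≤ ∑ j ∈ Finset.range (min 5 M), b j := Finset.sum_nonneg fun j _ => hb j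
    linarith
  | succ N ih =>
    rw [Finset.sum_range_succ]
    by_cases hM : N + 5 < M
    · have e1 : min (N + 1 + 5) M = min (N + 5) M + 1 := by omega
      have e2 : min (N + 5) M = N + 5 := by omega
      have e3 : TT b (min (N + 1 + 5) M) = TT b (min (N + 5) M) + 2 ^ (N + 5) * b (N + 5) := by
        rw [e1, e2]
        unfold TT
        rw [Finset.sum_range_succ]
      have e4 : ∑ j ∈ Finset.range (min (N + 1 + 5) M), b j
          = ∑ j ∈ Finset.range (min (N + 5) M), b j + b (N + 5) := by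
        rw [e1, e2, Finset.sum_range_succ]
      rw [e3, e4]
      have e5 : (1 / 2 : ℝ) ^ N * 2 ^ N = 1 := by rw [← mul_pow]; norm_num
      have e6 : 2 * (1 / 2 : ℝ) ^ (N + 1) * (2 ^ (N + 5) * b (N + 5))
          = 32 * ((1 / 2 : ℝ) ^ N * 2 ^ N) * b (N + 5) := by ring
      rw [e5] at e6
      have e7 : 2 * (1 / 2 : ℝ) ^ (N + 1) * TT b (min (N + 5) M)
          = (1 / 2 : ℝ) ^ N * TT b (min (N + 5) M) := by ring
      rw [mul_add, e6, e7]
      linarith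
    · have e1 : min (N + 1 + 5) M = M := by omega
      have e2 : min (N + 5) M = M := by omega
      rw [e1]
      rw [e2] at ih ⊢
      have e7 : 2 * (1 / 2 : ℝ) ^ (N + 1) * TT b M = (1 / 2 : ℝ) ^ N * TT b M := by ring
      rw [e7]
      linarith

theorem dbl' {b : ℕ → ℝ} (hb : ∀ j, 0 ≤ b j) (M N : ℕ) :
    ∑ k ∈ Finset.range N, (1 / 2 : ℝ) ^ k * TT b (min (k + 5) M)
      ≤ 64 * ∑ j ∈ Finset.range M, b j := by
  have h1 := dbl hb M N
  have h2 : 0 ≤ TT b (min (N + 5) M) :=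
    Finset.sum_nonneg fun j _ => mul_nonneg (by positivity) (hb j)
  have h3 := TT_le hb (n := min 5 M) (by omega)
  have h4 : ∑ j ∈ Finset.range (min 5 M), b j ≤ ∑ j ∈ Finset.range M, b j :=
    Finset.sum_le_sum_of_subset_of_nonneg (Finset.range_mono (by omega)) fun j _ _ => hb j
  have h5 : ∑ j ∈ Finset.range (min (N + 5) M), b j ≤ ∑ j ∈ Finset.range M, b j :=
    Finset.sum_le_sum_of_subset_of_nonneg (Finset.range_mono (by omega)) fun j _ _ => hb j
  have h6 : 0 ≤ 2 * (1 / 2 : ℝ) ^ N * TT b (min (N + 5) M) := by positivity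
  linarith

/-! ### The scaled field -/

section scaled

variable {u v : V → V} {x c : V} {m : ℕ}

theorem rr_pos (m : ℕ) : 0 < rr m := by unfold rr; positivity

theorem rr_eq (m k : ℕ) : rr m * 2 ^ k = 2 ^ k / 2 ^ m := by
  unfold rr
  rw [one_div, inv_pow]
  field_simp

theorem rr4 (m : ℕ) : rr m ^ 4 = (1 / 16) ^ m := by
  unfold rr
  rw [← pow_mul, mul_comm, pow_mul]
  norm_num

theorem rr8 (m : ℕ) : rr m ^ 3 * 8 ^ m = 1 := by
  unfold rr
  rw [← pow_mul, mul_comm m 3, pow_mul, ← mul_pow]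
  norm_num

theorem B2_scale (hu : ContDiff ℝ ∞ u) (hv : ∀ z i, v z i = rr m * (u (x + rr m • z) i - c i))
    (R : ℝ) : B2 0 R v = rr m * ∫ y in ball x (rr m * R), gsq u y := by
  unfold B2
  have h0 := rr_pos m
  have h1 : ∀ z, gsq v z = rr m ^ 4 * gsq u (x + rr m • z) := gsq_scale hu hv
  simp_rw [h1]
  rw [integral_const_mul, int_ball_scale _ x h0]
  have : rr m ^ 4 = rr m * rr m ^ 3 := by ring
  rw [this, mul_assoc, mul_inv_cancel_left₀ (by positivity)]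

/-- the normalised local enstrophy -/
noncomputable def bb (v : V → V) (j : ℕ) : ℝ := B2 0 (2 ^ j) v / 8 ^ j

theorem B2_nonneg' (a : V) (ρ : ℝ) (v : V → V) : 0 ≤ B2 a ρ v :=
  setIntegral_nonneg measurableSet_ball fun x _ => gsq_nonneg v x

theorem bb_nonneg (v : V → V) (j : ℕ) : 0 ≤ bb v j := div_nonneg (B2_nonneg' _ _ _) (by positivity)

theorem bb_lt (hu : ContDiff ℝ ∞ u) (hv : ∀ z i, v z i = rr m * (u (x + rr m • z) i - c i))
    (j : ℕ) : bb v j = 8 * (avg u x (2 ^ j / 2 ^ m) / 16 ^ m) := by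
  unfold bb avg
  rw [B2_scale hu hv, rr_eq]
  have h1 : rr m = 1 / 2 ^ m := by unfold rr; rw [one_div_pow]
  rw [h1]
  have h2 : (8 : ℝ) ^ j = (2 ^ j) ^ 3 := by rw [← pow_mul, mul_comm, pow_mul]; norm_num
  have h3 : (16 : ℝ) ^ m = (2 ^ m) ^ 4 := by rw [← pow_mul, mul_comm, pow_mul]; norm_num
  rw [h2, h3]
  have h4 : (2 : ℝ) ^ j ≠ 0 := by positivity
  have h5 : (2 : ℝ) ^ m ≠ 0 := by positivity
  generalize (∫ y in ball x ((2 : ℝ) ^ j / 2 ^ m), gsq u y) = I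
  generalize (2 : ℝ) ^ j = a at *
  generalize (2 : ℝ) ^ m = b at *
  field_simp
  ring

theorem bb_ge (hu : SPV u) (hv : ∀ z i, v z i = rr m * (u (x + rr m • z) i - c i))
    (n : ℕ) : bb v (m + n) ≤ 8 * (enstrophy u / 16 ^ m) := by
  unfold bb
  rw [B2_scale hu.1 hv, rr_eq]
  have h0 : (2 : ℝ) ^ (m + n) / 2 ^ m = 2 ^ (n + 1) / 2 := by
    rw [pow_add, pow_succ]; field_simp
  rw [h0]
  have h1 := ball_pow (gsq_cont hu.1) (gsq_per hu.2) (gsq_nonneg u) (n + 1) x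
  rw [int_gsq hu.1] at h1
  have h2 := rr_pos m
  have h3 : rr m * ∫ y in ball x (2 ^ (n + 1) / 2), gsq u y
      ≤ rr m * (8 ^ (n + 1) * enstrophy u) := mul_le_mul_of_nonneg_left h1 h2.le
  rw [div_le_iff₀ (by positivity)]
  refine h3.trans (le_of_eq ?_)
  have h4 : rr m = 1 / 2 ^ m := by unfold rr; rw [one_div_pow]
  have h5 : (8 : ℝ) ^ (m + n) = (2 ^ m) ^ 3 * 8 ^ n := by
    rw [pow_add, ← pow_mul, mul_comm m 3, pow_mul]; norm_num
  have h6 : (16 : ℝ) ^ m = (2 ^ m) ^ 4 := by rw [← pow_mul, mul_comm, pow_mul]; norm_num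
  rw [h4, h5, h6]
  have h7 : (2 : ℝ) ^ m ≠ 0 := by positivity
  rw [pow_succ]
  generalize (2 : ℝ) ^ m = b at *
  field_simp

theorem sum_bb (hu : SPV u) (hv : ∀ z i, v z i = rr m * (u (x + rr m • z) i - c i)) :
    ∑ j ∈ Finset.range (m + 2), bb v j ≤ 16 * FF m u x := by
  rw [Finset.sum_range_succ, Finset.sum_range_succ]
  have h1 := bb_ge (x := x) (c := c) hu hv 0
  have h2 := bb_ge (x := x) (c := c) hu hv 1
  rw [add_zero] at h1
  have h3 : ∑ j ∈ Finset.range m, bb v j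
      = 8 * ((∑ k ∈ Finset.range m, avg u x (2 ^ k / 2 ^ m)) / 16 ^ m) := by
    rw [Finset.sum_congr rfl fun j _ => bb_lt hu.1 hv j, ← Finset.mul_sum, ← Finset.sum_div]
  rw [h3]
  unfold FF
  rw [add_div]
  have h4 : 0 ≤ (∑ k ∈ Finset.range m, avg u x (2 ^ k / 2 ^ m)) / 16 ^ m := by
    refine div_nonneg (Finset.sum_nonneg fun k _ => avg_nonneg u x (by positivity)) (by positivity)
  linarith

theorem B2_two (hu : SPV u) (hv : ∀ z i, v z i = rr m * (u (x + rr m • z) i - c i)) :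
    B2 0 2 v ≤ 128 * FF m u x := by
  have h1 := sum_bb (x := x) (c := c) hu hv
  have h2 : bb v 1 ≤ ∑ j ∈ Finset.range (m + 2), bb v j :=
    Finset.single_le_sum (fun j _ => bb_nonneg v j) (Finset.mem_range.2 (by omega))
  have h3 : bb v 1 = B2 0 2 v / 8 := by unfold bb; norm_num
  rw [h3] at h2
  linarith

theorem L4_scale (hv : ∀ z i, v z i = rr m * (u (x + rr m • z) i - c i))
    (R : ℝ) : L4 0 R v = (rr m ^ 3)⁻¹ * ∫ y in ball x (rr m * R),
      nsq (fun y i => rr m * (u y i - c i)) y ^ 2 := by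
  unfold L4
  rw [← int_ball_scale _ x (rr_pos m)]
  refine setIntegral_congr_fun measurableSet_ball fun z _ => ?_
  unfold nsq
  simp only [hv]

theorem L4_ge (hu : SPV u) (hv : ∀ z i, v z i = rr m * (u (x + rr m • z) i - c i)) (n : ℕ) :
    L4 0 (2 ^ (m + n)) v ≤ 8 ^ (n + 1) * L4 0 (2 ^ m) v := by
  rw [L4_scale hv, L4_scale hv, rr_eq, rr_eq]
  have h0 : (2 : ℝ) ^ (m + n) / 2 ^ m = 2 ^ (n + 1) / 2 := by
    rw [pow_add, pow_succ]; field_simp
  have h0' : (2 : ℝ) ^ m / 2 ^ m = 1 := by field_simp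
  rw [h0, h0']
  set F : V → ℝ := fun y => nsq (fun y i => rr m * (u y i - c i)) y ^ 2 with hF
  have hc : Continuous F := by
    simp only [hF, nsq]
    have : ∀ i, Continuous fun y => u y i := fun i => (contDiff_pi.1 hu.1 i).continuous
    fun_prop
  have hp : Per F := by
    intro i y
    simp only [hF, nsq]
    have : ∀ k, u (y + Pi.single i 1) k = u y k := fun k => congrFun (hu.2 i y) k
    simp only [this]
  have hn : ∀ y, 0 ≤ F y := fun y => sq_nonneg _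
  have h1 := ball_pow hc hp hn (n + 1) x
  have h2 := cube_le_ball hc hp hn x
  have h3 : 0 < (rr m ^ 3)⁻¹ := by have := rr_pos m; positivity
  calc (rr m ^ 3)⁻¹ * ∫ y in ball x (2 ^ (n + 1) / 2), F y
      ≤ (rr m ^ 3)⁻¹ * (8 ^ (n + 1) * ∫ y in ball x 1, F y) := by
        refine mul_le_mul_of_nonneg_left (h1.trans ?_) h3.le
        exact mul_le_mul_of_nonneg_left h2 (by positivity)
    _ = _ := by ring

theorem L4_nonneg' (a : V) (ρ : ℝ) (v : V → V) : 0 ≤ L4 a ρ v :=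
  setIntegral_nonneg measurableSet_ball fun _ _ => sq_nonneg _

theorem L4_all {C : ℝ} (hC : 0 < C) (hG : ∀ k : ℕ, √(L4 0 (2 ^ k) v) ≤ C * √(8 ^ k) *
      (∑ j ∈ Finset.range (k + 2), 2 ^ j * √(B2 0 (2 ^ j) v / 8 ^ j)) ^ 2)
    (hu : SPV u) (hv : ∀ z i, v z i = rr m * (u (x + rr m • z) i - c i)) (k : ℕ) :
    √(L4 0 (2 ^ k) v) ≤ 3 * C * √(8 ^ k) * SS (bb v) (min k m + 2) ^ 2 := by
  have hG' : ∀ k : ℕ, √(L4 0 (2 ^ k) v) ≤ C * √(8 ^ k) * SS (bb v) (k + 2) ^ 2 := hG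
  rcases le_total k m with h | h
  · rw [min_eq_left h]
    refine (hG' k).trans ?_
    have : 0 ≤ C * √(8 ^ k) * SS (bb v) (k + 2) ^ 2 := by positivity
    linarith
  · rw [min_eq_right h]
    obtain ⟨n, rfl⟩ := Nat.exists_eq_add_of_le h
    have h1 := L4_ge (x := x) (c := c) hu hv n
    have h2 : √(L4 0 (2 ^ (m + n)) v) ≤ √(8 ^ (n + 1)) * √(L4 0 (2 ^ m) v) := by
      rw [← Real.sqrt_mul (by positivity)]
      exact Real.sqrt_le_sqrt h1
    refine h2.trans ((mul_le_mul_of_nonneg_left (hG' m) (Real.sqrt_nonneg _)).trans ?_)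
    have h3 : √((8 : ℝ) ^ (n + 1)) = √8 * √(8 ^ n) := by
      rw [pow_succ, mul_comm, Real.sqrt_mul (by norm_num)]
    have h4 : √((8 : ℝ) ^ (m + n)) = √(8 ^ m) * √(8 ^ n) := by
      rw [pow_add, Real.sqrt_mul (by positivity)]
    rw [h3, h4]
    have h5 : √(8 : ℝ) ≤ 3 := by
      rw [Real.sqrt_le_left (by norm_num)]
      norm_num
    have h6 : 0 ≤ √((8 : ℝ) ^ n) * (C * √(8 ^ m) * SS (bb v) (m + 2) ^ 2) := by positivity
    nlinarith

end scaled

end Pool.Agent.Y155.NS
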