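import Pool.Agent.W61.MD.FRAME
import Pool.Agent.W583.MD.EN

/-! The equations in the moving frame, at regular times. -/

set_option autoImplicit false

open MeasureTheory Set Metric Filter Topology
open scoped ContDiff

namespace Pool.Agent.Y155.NS

open H459R3.NS W221.NS Pool.Agent.W61.MD.FRAME

noncomputable section

/-- the equations at the times in an open set, in the moving frame -/
structure Fr (H : Set ℝ) (v : ℝ → V → V) (q : ℝ → V → ℝ) : Prop where
  smooth_v : ContDiffOn ℝ ∞ (fun z : ℝ × V => v z.1 z.2) (H ×ˢ univ)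
  momentum : ∀ t ∈ H, ∀ x i,
    deriv (fun s => v s x i) t + ∑ j, v t x j * pd j (fun y => v t y i) x
      = ∑ j, pd j (pd j (fun y => v t y i)) x - pd i (q t) x
  mean : ∀ t ∈ H, ∀ i, ∫ z, th z * v t z i = 0

theorem frame {G : Set ℝ} (hG : IsOpen G) {u : ℝ → V → V} {p : ℝ → V → ℝ}
    (hu : ContDiffOn ℝ ∞ (fun z : ℝ × V => u z.1 z.2) (G ×ˢ univ))
    (hP : ContDiffOn ℝ ∞ (fun z : ℝ × V => p z.1 z.2) (G ×ˢ univ))
    (hm : ∀ t ∈ G, ∀ x i,
      deriv (fun s => u s x i) t + ∑ j, u t x j * pd j (fun y => u t y i) x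
        = 1 * ∑ j, pd j (pd j (fun y => u t y i)) x - pd i (p t) x)
    (r s : ℝ) {X : ℝ → V} (hX : ContDiffOn ℝ ∞ X G)
    (hX' : ∀ t ∈ G, HasDerivAt X (mol r u t (X t)) t) :
    Fr {t | s + r ^ 2 * t ∈ G} (frv r s X u) (frq r s X p) := by
  set H : Set ℝ := {t | s + r ^ 2 * t ∈ G} with hH
  have hU : ∀ i, ContDiffOn ℝ ∞ (fun z : ℝ × V => u z.1 z.2 i) (G ×ˢ univ) := fun i =>
    (contDiffOn_pi.1 hu) i
  have hopen : IsOpen (G ×ˢ (univ : Set V)) := hG.prod isOpen_univ
  have hXi : ∀ i, ContDiffOn ℝ ∞ (fun τ => X τ i) G := fun i => (contDiffOn_pi.1 hX) i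
  have hX1 : ∀ i, ContDiffOn ℝ ∞ (deriv (fun τ => X τ i)) G := fun i =>
    (hXi i).deriv_of_isOpen hG (by simp)
  have hX2 : ∀ i, ContDiffOn ℝ ∞ (deriv (deriv (fun τ => X τ i))) G := fun i =>
    (hX1 i).deriv_of_isOpen hG (by simp)
  have hA : ContDiff ℝ ∞ (fun z : ℝ × V => s + r ^ 2 * z.1) := by fun_prop
  have hAm : MapsTo (fun z : ℝ × V => s + r ^ 2 * z.1) (H ×ˢ univ) G := fun z hz => hz.1
  have hΨ : ContDiffOn ℝ ∞ (fun z : ℝ × V => (s + r ^ 2 * z.1, X (s + r ^ 2 * z.1) + r • z.2))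
      (H ×ˢ univ) := by
    refine hA.contDiffOn.prodMk ?_
    exact (hX.comp hA.contDiffOn hAm).add (by fun_prop)
  have hΨm : MapsTo (fun z : ℝ × V => (s + r ^ 2 * z.1, X (s + r ^ 2 * z.1) + r • z.2))
      (H ×ˢ univ) (G ×ˢ univ) := fun z hz => ⟨hz.1, mem_univ _⟩
  have hus : ∀ τ ∈ G, ∀ i, ContDiff ℝ ∞ (fun y => u τ y i) := fun τ h i =>
    slice_smooth (F := fun z : ℝ × V => u z.1 z.2 i) (hU i) h
  have hps : ∀ τ ∈ G, ContDiff ℝ ∞ (p τ) := fun τ h =>
    slice_smooth (F := fun z : ℝ × V => p z.1 z.2) hP h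
  have hdiff : ∀ {f : V → ℝ}, ContDiff ℝ ∞ f → ∀ x, DifferentiableAt ℝ f x := fun hf x =>
    (hf.differentiable (by simp)) x
  have hpdsm : ∀ {f : V → ℝ}, ContDiff ℝ ∞ f → ∀ j, ContDiff ℝ ∞ (pd j f) := by
    intro f hf j
    unfold pd
    exact (hf.fderiv_right (m := ∞) (by simp)).clm_apply contDiff_const
  have hpv : ∀ t ∈ H, ∀ i j x, pd j (fun y => frv r s X u t y i) x =
      r ^ 2 * pd j (fun y => u (s + r ^ 2 * t) y i) (X (s + r ^ 2 * t) + r • x) := by
    intro t ht i j x
    have h1 := hus _ ht i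
    have e1 : (fun y => frv r s X u t y i) = fun y =>
        r * ((fun y => u (s + r ^ 2 * t) y i) (X (s + r ^ 2 * t) + r • y)
          - deriv (fun τ => X τ i) (s + r ^ 2 * t)) := rfl
    rw [e1, pd_const_mul, pd_sub_const, pd_affine _ _ _ _ (hdiff h1 _)]
    · ring
    · refine DifferentiableAt.sub_const ?_ _
      exact (hdiff h1 _).comp x (by fun_prop)
  refine ⟨?_, ?_, ?_⟩
  · -- smoothness of v
    rw [contDiffOn_pi]
    intro i
    have h1 := (hU i).comp hΨ hΨm
    have h2 := (hX1 i).comp hA.contDiffOn hAm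
    exact contDiffOn_const.mul (h1.sub h2)
  · -- momentum
    intro t ht x i
    set τ := s + r ^ 2 * t with hτdef
    have hτ2 : τ ∈ G := ht
    have hui := hus τ hτ2 i
    set Y : V := X τ + r • x with hY
    have hFd : DifferentiableAt ℝ (fun z : ℝ × V => u z.1 z.2 i) (τ, Y) :=
      ((hU i).contDiffAt (hopen.mem_nhds ⟨hτ2, mem_univ _⟩)).differentiableAt (by simp)
    have hXd : HasDerivAt X (mol r u τ (X τ)) τ := hX' τ hτ2
    have hXc : ∀ j, deriv (fun τ => X τ j) τ = mol r u τ (X τ) j := fun j =>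
      ((hasDerivAt_pi.1 hXd) j).deriv
    have hX1d : DifferentiableAt ℝ (deriv (fun τ => X τ i)) τ :=
      ((hX1 i).contDiffAt (hG.mem_nhds hτ2)).differentiableAt (by simp)
    have hAd : HasDerivAt (fun t' : ℝ => s + r ^ 2 * t') (r ^ 2) t := by
      have := ((hasDerivAt_id t).const_mul (r ^ 2)).const_add s
      simpa using this
    -- the time derivative
    have hcurve : HasDerivAt (fun t' : ℝ => (s + r ^ 2 * t', X (s + r ^ 2 * t') + r • x))
        (r ^ 2, r ^ 2 • mol r u τ (X τ)) t := by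
      refine hAd.prodMk ?_
      have h1 : HasDerivAt (fun t' : ℝ => X (s + r ^ 2 * t')) (r ^ 2 • mol r u τ (X τ)) t :=
        HasDerivAt.scomp t hXd hAd
      exact h1.add_const _
    have hd1 : HasDerivAt (fun t' : ℝ => u (s + r ^ 2 * t') (X (s + r ^ 2 * t') + r • x) i)
        (fderiv ℝ (fun z : ℝ × V => u z.1 z.2 i) (τ, Y) (r ^ 2, r ^ 2 • mol r u τ (X τ))) t := by
      have h0 : HasFDerivAt (fun z : ℝ × V => u z.1 z.2 i)
          (fderiv ℝ (fun z : ℝ × V => u z.1 z.2 i) (τ, Y))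
          ((fun t' : ℝ => (s + r ^ 2 * t', X (s + r ^ 2 * t') + r • x)) t) := hFd.hasFDerivAt
      exact h0.comp_hasDerivAt t hcurve
    rw [total hFd] at hd1
    have hd2 : HasDerivAt (fun t' : ℝ => deriv (fun τ => X τ i) (s + r ^ 2 * t'))
        (deriv (deriv (fun τ => X τ i)) τ * r ^ 2) t := by
      have h0 : HasDerivAt (deriv (fun τ => X τ i)) (deriv (deriv (fun τ => X τ i)) τ)
          ((fun t' : ℝ => s + r ^ 2 * t') t) := hX1d.hasDerivAt
      exact h0.comp t hAd
    have hd3 : deriv (fun s' => frv r s X u s' x i) t =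
        r * ((r ^ 2 * deriv (fun s => u s Y i) τ + ∑ j, (r ^ 2 • mol r u τ (X τ)) j *
          pd j (fun y => u τ y i) Y) - deriv (deriv (fun τ => X τ i)) τ * r ^ 2) :=
      ((hd1.sub hd2).const_mul r).deriv
    -- second derivatives
    have hpv2 : ∀ j, pd j (pd j (fun y => frv r s X u t y i)) x =
        r ^ 3 * pd j (pd j (fun y => u τ y i)) Y := by
      intro j
      have e1 : pd j (fun y => frv r s X u t y i) = fun x =>
          r ^ 2 * (pd j (fun y => u τ y i)) (X τ + r • x) := funext fun x => hpv t ht i j x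
      have h2 := hpdsm hui j
      rw [e1, pd_const_mul, pd_affine _ _ _ _ (hdiff h2 _)]
      · ring
      · exact (hdiff h2 _).comp x (by fun_prop)
    -- the pressure
    have hpq : pd i (frq r s X p t) x = r ^ 3 * pd i (p τ) Y +
        r ^ 3 * deriv (deriv (fun τ => X τ i)) τ := by
      have h1 := hps τ hτ2
      have e1 : frq r s X p t = fun y => r ^ 2 * (p τ) (X τ + r • y) +
          ∑ i, (fun i => r ^ 3 * deriv (deriv (fun τ => X τ i)) τ) i * y i := rfl
      rw [e1, pd_add, pd_const_mul, pd_affine _ _ _ _ (hdiff h1 _), pd_lin]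
      · ring
      · exact (hdiff h1 _).comp x (by fun_prop)
      · exact ((hdiff h1 _).comp x (by fun_prop)).const_mul _
      · fun_prop
    have hmom := hm τ hτ2 Y i
    rw [hd3, hpq]
    simp only [hpv t ht, hpv2]
    rw [← Finset.mul_sum]
    have e5 : ∑ j, (r ^ 2 • mol r u τ (X τ)) j * pd j (fun y => u τ y i) Y =
        r ^ 2 * ∑ j, mol r u τ (X τ) j * pd j (fun y => u τ y i) Y := by
      rw [Finset.mul_sum]
      refine Finset.sum_congr rfl fun j _ => ?_
      rw [Pi.smul_apply, smul_eq_mul]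
      ring
    have e6 : ∑ j, frv r s X u t x j * (r ^ 2 * pd j (fun y => u (s + r ^ 2 * t) y i)
        (X (s + r ^ 2 * t) + r • x)) = r ^ 3 * ∑ j, u τ Y j * pd j (fun y => u τ y i) Y -
        r ^ 3 * ∑ j, mol r u τ (X τ) j * pd j (fun y => u τ y i) Y := by
      rw [Finset.mul_sum, Finset.mul_sum, ← Finset.sum_sub_distrib]
      refine Finset.sum_congr rfl fun j _ => ?_
      have e7 : frv r s X u t x j = r * (u τ Y j - mol r u τ (X τ) j) := by
        show r * (u τ Y j - deriv (fun τ => X τ j) τ) = _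
        rw [hXc]
      rw [e7]
      ring
    rw [e5, e6]
    linear_combination r ^ 3 * hmom
  · -- mean
    intro t ht i
    set τ := s + r ^ 2 * t with hτdef
    have hτ2 : τ ∈ G := ht
    have hui := hus τ hτ2 i
    have hXd : HasDerivAt X (mol r u τ (X τ)) τ := hX' τ hτ2
    have hXc : deriv (fun τ => X τ i) τ = mol r u τ (X τ) i := ((hasDerivAt_pi.1 hXd) i).deriv
    have hc : Continuous (fun z => u τ (X τ + r • z) i) :=
      hui.continuous.comp (by fun_prop)
    have i1 : Integrable (fun z => th z * u τ (X τ + r • z) i) := by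
      refine Continuous.integrable_of_hasCompactSupport (th_cont.mul hc) ?_
      exact th_supp.mul_right
    have i2 : Integrable th := th_cont.integrable_of_hasCompactSupport th_supp
    have e1 : ∀ z, th z * frv r s X u t z i =
        r * (th z * u τ (X τ + r • z) i) - (r * mol r u τ (X τ) i) * th z := by
      intro z
      show th z * (r * (u τ (X τ + r • z) i - deriv (fun τ => X τ i) τ)) = _
      rw [hXc]
      ring
    simp only [e1]
    rw [integral_sub (i1.const_mul r) (i2.const_mul _), integral_const_mul, integral_const_mul,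
      th_int]
    show r * mol r u τ (X τ) i - _ = 0
    ring

end

end Pool.Agent.Y155.NS
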