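import Pool.Agent.Y155.NS.Frame
import Pool.Agent.Y8.Moll
import Pool.Agent.Y8.Stm2

/-! The slice information in the moving frame at a regular time. -/

set_option autoImplicit false

open MeasureTheory Set Metric Filter Topology
open scoped ContDiff

namespace Pool.Agent.Y155.NS

open H459R3.NS W221.NS Pool.Agent.Y8

theorem intC {f : V → ℝ} (hf : Continuous f) (a : V) (ρ : ℝ) : IntegrableOn f (ball a ρ) :=
  (hf.continuousOn.integrableOn_compact (isCompact_closedBall a ρ)).mono_set
    ball_subset_closedBall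

/-- Cauchy-Schwarz on a ball -/
theorem cs_ball {f g : V → ℝ} (hf : Continuous f) (hg : Continuous g) (a : V) (ρ : ℝ) :
    |∫ x in ball a ρ, f x * g x| ≤ √(∫ x in ball a ρ, f x ^ 2) * √(∫ x in ball a ρ, g x ^ 2) := by
  have i1 : IntegrableOn (fun x => f x ^ 2) (ball a ρ) := intC (hf.pow 2) a ρ
  have i2 : IntegrableOn (fun x => g x ^ 2) (ball a ρ) := intC (hg.pow 2) a ρ
  have i3 : IntegrableOn (fun x => f x * g x) (ball a ρ) := intC (hf.mul hg) a ρ
  have n1 : 0 ≤ ∫ x in ball a ρ, f x ^ 2 :=
    setIntegral_nonneg measurableSet_ball fun _ _ => sq_nonneg _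
  have n2 : 0 ≤ ∫ x in ball a ρ, g x ^ 2 :=
    setIntegral_nonneg measurableSet_ball fun _ _ => sq_nonneg _
  have h : ∀ t : ℝ, 0 ≤ (∫ x in ball a ρ, g x ^ 2) * (t * t) + (2 * ∫ x in ball a ρ, f x * g x) * t
      + ∫ x in ball a ρ, f x ^ 2 := by
    intro t
    have e : ∫ x in ball a ρ, (f x + t * g x) ^ 2 = (∫ x in ball a ρ, g x ^ 2) * (t * t)
        + (2 * ∫ x in ball a ρ, f x * g x) * t + ∫ x in ball a ρ, f x ^ 2 := by
      have e1 : (fun x => (f x + t * g x) ^ 2) = fun x => (f x ^ 2 + (2 * t) * (f x * g x))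
          + (t * t) * g x ^ 2 := by
        funext x; ring
      have i4 : IntegrableOn (fun x => (2 * t) * (f x * g x)) (ball a ρ) := i3.const_mul (2 * t)
      have i5 : IntegrableOn (fun x => (t * t) * g x ^ 2) (ball a ρ) := i2.const_mul (t * t)
      have i6 : IntegrableOn (fun x => f x ^ 2 + (2 * t) * (f x * g x)) (ball a ρ) := i1.add i4
      rw [e1, integral_add i6 i5, integral_add i1 i4, integral_const_mul, integral_const_mul]
      ring
    rw [← e]
    exact setIntegral_nonneg measurableSet_ball fun _ _ => sq_nonneg _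
  have hd := discrim_le_zero h
  unfold discrim at hd
  rw [← Real.sqrt_mul n1]
  refine Real.abs_le_sqrt ?_
  nlinarith

/-- the force -/
theorem force_bd : ∃ C : ℝ, 0 < C ∧ ∀ v : V → V, ContDiff ℝ ∞ v → ∀ i : Fin 3,
    |∫ z, th z * (∑ j, pd j (pd j (fun y => v y i)) z - ∑ j, v z j * pd j (fun y => v y i) z)|
      ≤ C * (√(B2 0 2 v) + √(A2 0 2 v) * √(B2 0 2 v)) := by
  obtain ⟨K, hK1, hK2, -, hK3, -⟩ := th_bd
  refine ⟨3 * (3 * K), by positivity, fun v hv i => ?_⟩
  have hvi : ∀ i, ContDiff ℝ ∞ (fun y => v y i) := fun i => contDiff_pi.1 hv i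
  have hp : ∀ j, ContDiff ℝ ∞ (pd j (fun y => v y i)) := fun j =>
    Pool.Agent.W583.MD.sm_pd (hvi i) j
  have hB : ∀ j, ∫ z in ball (0 : V) 1, pd j (fun y => v y i) z ^ 2 ≤ B2 0 2 v := by
    intro j
    have hg : Continuous (gsq v) := by
      unfold gsq
      refine continuous_finsetSum _ fun i _ => continuous_finsetSum _ fun j _ => ?_
      exact (Pool.Agent.W583.MD.sm_pd (hvi i) j).continuous.pow 2
    calc ∫ z in ball (0 : V) 1, pd j (fun y => v y i) z ^ 2
        ≤ ∫ z in ball (0 : V) 1, gsq v z := by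
          refine setIntegral_mono (intC ((hp j).continuous.pow 2) _ _) (intC hg _ _) fun z => ?_
          unfold gsq
          calc pd j (fun y => v y i) z ^ 2 ≤ ∑ j, pd j (fun y => v y i) z ^ 2 :=
                Finset.single_le_sum (f := fun j => pd j (fun y => v y i) z ^ 2)
                  (fun _ _ => sq_nonneg _) (Finset.mem_univ j)
            _ ≤ _ := Finset.single_le_sum (f := fun i => ∑ j, pd j (fun y => v y i) z ^ 2)
                  (fun _ _ => Finset.sum_nonneg fun _ _ => sq_nonneg _) (Finset.mem_univ i)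
      _ ≤ ∫ z in ball (0 : V) 2, gsq v z :=
          setIntegral_mono_set (intC hg _ _) (Eventually.of_forall fun z =>
            Finset.sum_nonneg fun _ _ => Finset.sum_nonneg fun _ _ => sq_nonneg _)
            (LE.le.eventuallyLE (ball_subset_ball (by norm_num)))
  have vol8 : (volume : Measure V).real (ball 0 1) = 8 := by
    rw [Measure.real, Real.volume_pi_ball _ one_pos, ENNReal.toReal_ofReal (by positivity)]
    norm_num
  -- the first part
  have h1 : ∀ j, |∫ z, th z * pd j (pd j (fun y => v y i)) z| ≤ 3 * K * √(B2 0 2 v) := by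
    intro j
    have hz := Pool.Agent.W583.MD.Z_pd (f := fun z => th z * pd j (fun y => v y i) z)
      (th_sm.mul (hp j)) (th_hcs.mul_right) j
    have e1 : ∀ z, pd j (fun z => th z * pd j (fun y => v y i) z) z
        = th z * pd j (pd j (fun y => v y i)) z + pd j th z * pd j (fun y => v y i) z := fun z =>
      Pool.Agent.W583.MD.pd_mul' th_sm (hp j) j z
    have i1 : Integrable fun z => th z * pd j (pd j (fun y => v y i)) z :=
      (th_sm.continuous.mul (Pool.Agent.W583.MD.sm_pd (hp j) j).continuous).integrable_of_hasCompactSupport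
        th_hcs.mul_right
    have i2 : Integrable fun z => pd j th z * pd j (fun y => v y i) z :=
      ((Pool.Agent.W583.MD.sm_pd th_sm j).continuous.mul (hp j).continuous).integrable_of_hasCompactSupport
        (Pool.Agent.W583.MD.cs_pd th_hcs j).mul_right
    have e2 := hz.2
    simp_rw [e1] at e2
    rw [integral_add i1 i2] at e2
    have e3 : ∫ z, th z * pd j (pd j (fun y => v y i)) z
        = -∫ z, pd j th z * pd j (fun y => v y i) z := by linarith
    rw [e3, abs_neg]
    have e4 : ∫ z, pd j th z * pd j (fun y => v y i) z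
        = ∫ z in ball (0 : V) 1, pd j th z * pd j (fun y => v y i) z := by
      refine (ball_int_eq fun z hz => ?_).symm
      rw [pd_zero' th_sm one_pos (fun z hz => th_z hz) hz, zero_mul]
    rw [e4]
    refine (cs_ball (Pool.Agent.W583.MD.sm_pd th_sm j).continuous (hp j).continuous 0 1).trans ?_
    have h2 : ∫ z in ball (0 : V) 1, pd j th z ^ 2 ≤ (3 * K) ^ 2 := by
      have a1 : ‖∫ z in ball (0 : V) 1, pd j th z ^ 2‖
          ≤ K ^ 2 * (volume : Measure V).real (ball 0 1) := by
        refine norm_setIntegral_le_of_norm_le_const measure_ball_lt_top fun x _ => ?_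
        rw [Real.norm_of_nonneg (sq_nonneg _), ← sq_abs]
        exact pow_le_pow_left₀ (abs_nonneg _) (hK3 x j) 2
      rw [vol8] at a1
      have a2 := (Real.le_norm_self _).trans a1
      nlinarith
    have h3 : √(∫ z in ball (0 : V) 1, pd j th z ^ 2) ≤ 3 * K :=
      Real.sqrt_le_iff.2 ⟨by positivity, h2⟩
    exact mul_le_mul h3 (Real.sqrt_le_sqrt (hB j)) (Real.sqrt_nonneg _) (by positivity)
  -- the second part
  have h2 : ∀ j, |∫ z, th z * (v z j * pd j (fun y => v y i) z)|
      ≤ K * (√(A2 0 2 v) * √(B2 0 2 v)) := by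
    intro j
    have e4 : ∫ z, th z * (v z j * pd j (fun y => v y i) z)
        = ∫ z in ball (0 : V) 1, (th z * v z j) * pd j (fun y => v y i) z := by
      have : (fun z => th z * (v z j * pd j (fun y => v y i) z))
          = fun z => (th z * v z j) * pd j (fun y => v y i) z := by funext z; ring
      rw [this]
      refine (ball_int_eq fun z hz => ?_).symm
      rw [th_z hz, zero_mul, zero_mul]
    rw [e4]
    refine (cs_ball (th_sm.continuous.mul (hvi j).continuous) (hp j).continuous 0 1).trans ?_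
    have hn : Continuous (nsq v) := by
      unfold nsq
      refine continuous_finsetSum _ fun i _ => ?_
      exact (hvi i).continuous.pow 2
    have h3 : ∫ z in ball (0 : V) 1, (th z * v z j) ^ 2 ≤ K ^ 2 * A2 0 2 v := by
      calc ∫ z in ball (0 : V) 1, (th z * v z j) ^ 2
          ≤ ∫ z in ball (0 : V) 1, K ^ 2 * nsq v z := by
            refine setIntegral_mono (intC ((th_sm.continuous.mul (hvi j).continuous).pow 2) _ _)
              (intC (continuous_const.mul hn) _ _) fun z => ?_
            show (th z * v z j) ^ 2 ≤ K ^ 2 * nsq v z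
            rw [mul_pow]
            refine mul_le_mul (pow_le_pow_left₀ (th_nn z) (hK2 z) 2) ?_ (sq_nonneg _) (by positivity)
            unfold nsq
            exact Finset.single_le_sum (f := fun j => v z j ^ 2)
                  (fun _ _ => sq_nonneg _) (Finset.mem_univ j)
        _ = K ^ 2 * ∫ z in ball (0 : V) 1, nsq v z := integral_const_mul _ _
        _ ≤ K ^ 2 * ∫ z in ball (0 : V) 2, nsq v z := by
            refine mul_le_mul_of_nonneg_left ?_ (by positivity)
            exact setIntegral_mono_set (intC hn _ _) (Eventually.of_forall fun z =>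
              Finset.sum_nonneg fun _ _ => sq_nonneg _)
              (LE.le.eventuallyLE (ball_subset_ball (by norm_num)))
    have h4 : √(∫ z in ball (0 : V) 1, (th z * v z j) ^ 2) ≤ K * √(A2 0 2 v) := by
      refine (Real.sqrt_le_sqrt h3).trans (le_of_eq ?_)
      rw [Real.sqrt_mul (by positivity), Real.sqrt_sq (by positivity)]
    calc _ ≤ (K * √(A2 0 2 v)) * √(B2 0 2 v) :=
          mul_le_mul h4 (Real.sqrt_le_sqrt (hB j)) (Real.sqrt_nonneg _) (by positivity)
      _ = _ := by ring
  have i1 : ∀ j, Integrable fun z => th z * pd j (pd j (fun y => v y i)) z := fun j =>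
    (th_sm.continuous.mul (Pool.Agent.W583.MD.sm_pd (hp j) j).continuous).integrable_of_hasCompactSupport
      th_hcs.mul_right
  have i2 : ∀ j, Integrable fun z => th z * (v z j * pd j (fun y => v y i) z) := fun j =>
    (th_sm.continuous.mul ((hvi j).continuous.mul (hp j).continuous)).integrable_of_hasCompactSupport
      th_hcs.mul_right
  have e0 : ∫ z, th z * (∑ j, pd j (pd j (fun y => v y i)) z
        - ∑ j, v z j * pd j (fun y => v y i) z)
      = ∑ j, (∫ z, th z * pd j (pd j (fun y => v y i)) z)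
        - ∑ j, ∫ z, th z * (v z j * pd j (fun y => v y i) z) := by
    rw [← integral_finsetSum _ fun j _ => i1 j, ← integral_finsetSum _ fun j _ => i2 j,
      ← integral_sub (integrable_finsetSum _ fun j _ => i1 j)
        (integrable_finsetSum _ fun j _ => i2 j)]
    congr 1
    funext z
    rw [mul_sub, Finset.mul_sum, Finset.mul_sum]
  rw [e0]
  have s1 : |∑ j, ∫ z, th z * pd j (pd j (fun y => v y i)) z| ≤ 3 * (3 * K * √(B2 0 2 v)) := by
    refine (Finset.abs_sum_le_sum_abs _ _).trans ?_
    refine (Finset.sum_le_sum fun j _ => h1 j).trans (le_of_eq ?_)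
    simp
  have s2 : |∑ j, ∫ z, th z * (v z j * pd j (fun y => v y i) z)|
      ≤ 3 * (K * (√(A2 0 2 v) * √(B2 0 2 v))) := by
    refine (Finset.abs_sum_le_sum_abs _ _).trans ?_
    refine (Finset.sum_le_sum fun j _ => h2 j).trans (le_of_eq ?_)
    simp
  refine (abs_sub _ _).trans ?_
  have : 0 ≤ K * (√(A2 0 2 v) * √(B2 0 2 v)) := by positivity
  linarith

theorem t_WSL (hF : S_FAR) (hD : S_WDIV) (hPo : S_POINC) : S_WSL := by
  obtain ⟨CF, hCF, hF⟩ := hF
  obtain ⟨Cp, hCp, hPo⟩ := hPo
  obtain ⟨C1, hC1, hfo⟩ := force_bd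
  set C3 : ℝ := C1 * (1 + √Cp) with hC3
  have hC3p : 0 < C3 := by positivity
  set C2 : ℝ := C3 ^ 2 * CF + C3 * CF + CF with hC2
  have hC2p : 0 < C2 := by positivity
  have hC2a : CF ≤ C2 := by
    have h1 : 0 ≤ C3 ^ 2 * CF := by positivity
    have h2 : 0 ≤ C3 * CF := by positivity
    linarith
  refine ⟨C2, hC2p, fun T E D G u p hT m s hm X hX hX' t ht hτ => ?_⟩
  have hmol : ∀ t ∈ G, HasDerivAt X (mol (rr m) u t (X t)) t := fun t ht => hX' t ht
  have hfr := frame hT.openG hT.smooth_u hT.smooth_p hT.momentum (rr m) s hX hmol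
  set τ := s + rr m ^ 2 * t with hτd
  have su : ContDiff ℝ ∞ (u τ) := sl_sm hT.smooth_u hτ
  have sp : ContDiff ℝ ∞ (p τ) := sl_sm hT.smooth_p hτ
  set H : Set ℝ := {t | s + rr m ^ 2 * t ∈ G} with hH
  have hHo : IsOpen H := hT.openG.preimage (by fun_prop)
  have htH : t ∈ H := hτ
  set v : V → V := frv (rr m) s X u t with hv
  set q : V → ℝ := frq (rr m) s X p t with hq
  have hmean : ∀ i, ∫ z, th z * v z i = 0 := hfr.mean t htH
  have sv : ContDiff ℝ ∞ v := sl_sm hfr.smooth_v htH
  obtain ⟨P, hP1, hP2, hP3, hP4, hP5⟩ := hF (u τ) (p τ) ⟨su, hT.per_u τ hτ⟩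
    ⟨sp, hT.per_p τ hτ⟩ (hT.divfree τ hτ) (hD T E D G u p hT τ hτ) m hm (X τ)
    (fun i => deriv (fun τ => X τ i) τ) (fun i => rr m ^ 3 * deriv (deriv (fun τ => X τ i)) τ)
    v q (fun z i => rfl) (fun z => rfl) hmean
  set Φ := FF m (u τ) (X τ) with hΦ
  have hB0 : 0 ≤ B2 0 2 v := setIntegral_nonneg measurableSet_ball fun z _ =>
    Finset.sum_nonneg fun _ _ => Finset.sum_nonneg fun _ _ => sq_nonneg _
  have hΦ0 : 0 ≤ Φ := by
    by_contra hcon
    push Not at hcon
    have : CF * Φ < 0 := mul_neg_of_pos_of_neg hCF hcon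
    linarith
  have hr0 : rr m ≠ 0 := by unfold rr; positivity
  refine ⟨P, ⟨sv, ?_, hP1, ?_, hmean, ?_, hP2, ?_, ?_, ?_⟩⟩
  · -- smoothness of the pressure
    show ContDiff ℝ ∞ (fun z => rr m ^ 2 * p τ (X τ + rr m • z)
      + ∑ i, rr m ^ 3 * deriv (deriv (fun τ => X τ i)) τ * z i)
    refine (contDiff_const.mul (Pool.Agent.W135.MD.sm_comp sp (X τ) (rr m))).add ?_
    exact ContDiff.sum fun i _ => contDiff_const.mul (contDiff_apply ℝ ℝ i)
  · -- divergence
    intro x
    have h1 : ∀ i, pd i (fun y => v y i) x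
        = rr m ^ 2 * pd i (fun y => u τ y i) (X τ + rr m • x) := by
      intro i
      have hui : ContDiff ℝ ∞ (fun y => u τ y i) := contDiff_pi.1 su i
      have e1 : (fun y => v y i) = fun y =>
          rr m * ((fun y => u τ y i) (X τ + rr m • y) - deriv (fun τ => X τ i) τ) := rfl
      have hdu : Differentiable ℝ (fun y => u τ y i) := hui.differentiable (by simp)
      rw [e1, Pool.Agent.W61.MD.FRAME.pd_const_mul, Pool.Agent.W61.MD.FRAME.pd_sub_const,
        Pool.Agent.W61.MD.FRAME.pd_affine _ _ _ _ (hdu _)]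
      · ring
      · refine DifferentiableAt.sub_const ?_ _
        exact (hdu _).comp x (by fun_prop)
    simp_rw [h1]
    rw [← Finset.mul_sum, hT.divfree τ hτ, mul_zero]
  · exact hP5.trans (mul_le_mul_of_nonneg_right hC2a hΦ0)
  · exact hP3.trans (pow_le_pow_left₀ (by positivity) (mul_le_mul_of_nonneg_right hC2a hΦ0) 2)
  · intro z hz i j
    exact (hP4 z hz i j).trans (mul_le_mul_of_nonneg_right hC2a hΦ0)
  · -- the force
    intro i
    -- the time derivative of the mean vanishes
    have hsm : ContDiffOn ℝ ∞ (fun z : ℝ × V => th z.2 * frv (rr m) s X u z.1 z.2 i)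
        (H ×ˢ univ) := by
      refine ContDiffOn.mul ?_ (contDiffOn_pi.1 hfr.smooth_v i)
      exact (th_sm.comp contDiff_snd).contDiffOn
    obtain ⟨α, β, htab, hab⟩ := nb hHo htH
    have hd := Pool.Agent.W583.MD.hd_int (α := α) (β := β)
      (F := fun t z => th z * frv (rr m) s X u t z i)
      (hsm.mono (prod_mono hab subset_rfl)) (fun t _ z hz => by
        show th z * _ = 0
        rw [th_z hz, zero_mul]) htab
    have hd0 : HasDerivAt (fun s' => ∫ x, th x * frv (rr m) s X u s' x i) 0 t := by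
      have : (fun s' => ∫ x, th x * frv (rr m) s X u s' x i) =ᶠ[𝓝 t] fun _ => 0 := by
        filter_upwards [Ioo_mem_nhds htab.1 htab.2] with s' hs'
        exact hfr.mean s' (hab hs') i
      exact (hasDerivAt_const t (0 : ℝ)).congr_of_eventuallyEq this
    have e1 : ∫ x, deriv (fun s' => th x * frv (rr m) s X u s' x i) t = 0 := hd.unique hd0
    have e2 : ∀ x, deriv (fun s' => th x * frv (rr m) s X u s' x i) t
        = th x * deriv (fun s' => frv (rr m) s X u s' x i) t := fun x => by
      have h1 := dt_hd' (F := fun t z => frv (rr m) s X u t z i) hHo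
        (contDiffOn_pi.1 hfr.smooth_v i) htH x
      exact (h1.const_mul (th x)).deriv
    simp_rw [e2] at e1
    -- the momentum equation
    have e3 : ∀ x, th x * pd i q x = th x * (∑ j, pd j (pd j (fun y => v y i)) x
        - ∑ j, v x j * pd j (fun y => v y i) x)
        - th x * deriv (fun s' => frv (rr m) s X u s' x i) t := by
      intro x
      have := hfr.momentum t htH x i
      have h2 : pd i q x = (∑ j, pd j (pd j (fun y => v y i)) x
        - ∑ j, v x j * pd j (fun y => v y i) x) - deriv (fun s' => frv (rr m) s X u s' x i) t := by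
        linarith
      rw [h2]
      ring
    have hvi : ∀ i, ContDiff ℝ ∞ (fun y => v y i) := fun i => contDiff_pi.1 sv i
    have hpj : ∀ j, ContDiff ℝ ∞ (pd j (fun y => v y i)) := fun j =>
      Pool.Agent.W583.MD.sm_pd (hvi i) j
    have i1 : Integrable fun x => th x * (∑ j, pd j (pd j (fun y => v y i)) x
        - ∑ j, v x j * pd j (fun y => v y i) x) := by
      refine (th_sm.continuous.mul (Continuous.sub ?_ ?_)).integrable_of_hasCompactSupport
        th_hcs.mul_right
      · exact continuous_finsetSum _ fun j _ => (Pool.Agent.W583.MD.sm_pd (hpj j) j).continuous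
      · exact continuous_finsetSum _ fun j _ => (hvi j).continuous.mul (hpj j).continuous
    have i2 : Integrable fun x => th x * deriv (fun s' => frv (rr m) s X u s' x i) t := by
      have hc : Continuous fun x => deriv (fun s' => frv (rr m) s X u s' x i) t := by
        have h1 := dt_joint (F := fun t z => frv (rr m) s X u t z i) hHo
          (contDiffOn_pi.1 hfr.smooth_v i)
        exact sl_ct (F := fun t x => deriv (fun s' => frv (rr m) s X u s' x i) t)
          h1.continuousOn htH
      exact (th_sm.continuous.mul hc).integrable_of_hasCompactSupport th_hcs.mul_right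
    have e4 : ∫ z, th z * pd i q z = ∫ z, th z * (∑ j, pd j (pd j (fun y => v y i)) z
        - ∑ j, v z j * pd j (fun y => v y i) z) := by
      simp_rw [e3]
      rw [integral_sub i1 i2, e1, sub_zero]
    rw [e4]
    refine (hfo v sv i).trans ?_
    have hA : A2 0 2 v ≤ Cp * B2 0 2 v := hPo v sv hmean
    have hsA : √(A2 0 2 v) ≤ √Cp * √(B2 0 2 v) := by
      rw [← Real.sqrt_mul hCp.le]
      exact Real.sqrt_le_sqrt hA
    have hbb : √(B2 0 2 v) * √(B2 0 2 v) = B2 0 2 v := Real.mul_self_sqrt hB0
    have g1 : √(A2 0 2 v) * √(B2 0 2 v) ≤ √Cp * B2 0 2 v := by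
      refine (mul_le_mul_of_nonneg_right hsA (Real.sqrt_nonneg _)).trans (le_of_eq ?_)
      rw [mul_assoc, hbb]
    have g2 : C1 * (√(B2 0 2 v) + √(A2 0 2 v) * √(B2 0 2 v))
        ≤ C3 * (√(B2 0 2 v) + B2 0 2 v) := by
      have hs0 : 0 ≤ √Cp := Real.sqrt_nonneg _
      have hs1 : 0 ≤ √(B2 0 2 v) := Real.sqrt_nonneg _
      calc C1 * (√(B2 0 2 v) + √(A2 0 2 v) * √(B2 0 2 v))
          ≤ C1 * (√(B2 0 2 v) + √Cp * B2 0 2 v) := by
            refine mul_le_mul_of_nonneg_left ?_ hC1.le
            linarith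
        _ ≤ C1 * ((1 + √Cp) * (√(B2 0 2 v) + B2 0 2 v)) := by
            refine mul_le_mul_of_nonneg_left ?_ hC1.le
            nlinarith [mul_nonneg hs0 hs1]
        _ = _ := by rw [hC3]; ring
    refine g2.trans ?_
    have g3 : √(B2 0 2 v) ≤ √(CF * Φ) := Real.sqrt_le_sqrt hP5
    have g4 : C3 * √(CF * Φ) ≤ √(C2 * Φ) := by
      have : C3 * √(CF * Φ) = √(C3 ^ 2 * (CF * Φ)) := by
        rw [Real.sqrt_mul (sq_nonneg C3) (CF * Φ), Real.sqrt_sq hC3p.le]
      rw [this]
      refine Real.sqrt_le_sqrt ?_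
      rw [← mul_assoc]
      refine mul_le_mul_of_nonneg_right ?_ hΦ0
      have h2 : 0 ≤ C3 * CF := by positivity
      linarith
    have g5 : C3 * B2 0 2 v ≤ C2 * Φ := by
      refine (mul_le_mul_of_nonneg_left hP5 hC3p.le).trans ?_
      rw [← mul_assoc]
      refine mul_le_mul_of_nonneg_right ?_ hΦ0
      have h1 : 0 ≤ C3 ^ 2 * CF := by positivity
      linarith
    have g6 : C3 * √(B2 0 2 v) ≤ C3 * √(CF * Φ) := mul_le_mul_of_nonneg_left g3 hC3p.le
    rw [mul_add]
    linarith

end Pool.Agent.Y155.NS
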